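import Mathlib
import Pool.Agent.W245.PB.Reduce
import Pool.Agent.L0h53.NP.Rel

set_option autoImplicit false

/-! Logarithms of rational numbers which are `p`-adically close to `1`. -/

namespace Pool.Agent.L0h53.PS

open Finset Pool.Agent.L0h53.NP Pool.Agent.W245.PB

/-- a product of powers of rational numbers as a quotient of small integers -/
theorem rep_prod {ι : Type*} (s : Finset ι) (c : ι → ℚ) (hc : ∀ i, 0 < c i) (t : ι → ℤ)
    {H : ℝ} (hH : 1 ≤ H) (hcH : ∀ i, HtLe H (c i)) (T : ℝ) (hT : ∑ i ∈ s, |(t i : ℝ)| ≤ T) :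
    ∃ A B : ℕ, 0 < A ∧ 0 < B ∧ (A : ℝ) ≤ Real.exp (T * Real.log H) ∧
      (B : ℝ) ≤ Real.exp (T * Real.log H) ∧ (∏ i ∈ s, c i ^ t i : ℚ) = A / B := by
  have hrep : ∃ A B : ℕ, 0 < A ∧ 0 < B ∧ (A : ℝ) ≤ H ^ (∑ i ∈ s, |(t i : ℝ)|) ∧
      (B : ℝ) ≤ H ^ (∑ i ∈ s, |(t i : ℝ)|) ∧ (∏ i ∈ s, c i ^ t i : ℚ) = A / B := by
    have one : ∀ i, ∃ A B : ℕ, 0 < A ∧ 0 < B ∧ (A : ℝ) ≤ H ^ |(t i : ℝ)| ∧
        (B : ℝ) ≤ H ^ |(t i : ℝ)| ∧ c i ^ t i = A / B := by
      intro i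
      obtain ⟨h1, h2⟩ := hcH i
      have hnum : 0 < (c i).num := Rat.num_pos.mpr (hc i)
      have hn : ((c i).num.natAbs : ℝ) ≤ H := by
        rw [Nat.cast_natAbs]; push_cast; exact h1
      have hci : c i = ((c i).num.natAbs : ℚ) / ((c i).den : ℚ) := by
        have e1 : (((c i).num.natAbs : ℕ) : ℚ) = ((c i).num : ℚ) := by
          have : (((c i).num.natAbs : ℕ) : ℤ) = (c i).num := by omega
          calc (((c i).num.natAbs : ℕ) : ℚ) = ((((c i).num.natAbs : ℕ) : ℤ) : ℚ) := by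
                rw [Int.cast_natCast]
            _ = ((c i).num : ℚ) := by rw [this]
        rw [e1]
        exact (Rat.num_div_den (c i)).symm
      rcases le_or_gt 0 (t i) with ht | ht
      · obtain ⟨k, hk⟩ := Int.eq_ofNat_of_zero_le ht
        refine ⟨(c i).num.natAbs ^ k, (c i).den ^ k, Nat.pow_pos (by omega),
          Nat.pow_pos (c i).pos, ?_, ?_, ?_⟩
        · rw [hk]; push_cast
          rw [abs_of_nonneg (by positivity), Real.rpow_natCast]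
          exact pow_le_pow_left₀ (Nat.cast_nonneg _) hn _
        · rw [hk]; push_cast
          rw [abs_of_nonneg (by positivity), Real.rpow_natCast]
          exact pow_le_pow_left₀ (Nat.cast_nonneg _) h2 _
        · rw [hk]
          conv_lhs => rw [hci]
          push_cast
          rw [zpow_natCast, div_pow]
      · obtain ⟨k, hk⟩ := Int.eq_ofNat_of_zero_le (show 0 ≤ -t i by omega)
        have hk' : t i = -(k : ℤ) := by omega
        refine ⟨(c i).den ^ k, (c i).num.natAbs ^ k, Nat.pow_pos (c i).pos,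
          Nat.pow_pos (by omega), ?_, ?_, ?_⟩
        · rw [hk']; push_cast
          rw [abs_neg, abs_of_nonneg (by positivity), Real.rpow_natCast]
          exact pow_le_pow_left₀ (Nat.cast_nonneg _) h2 _
        · rw [hk']; push_cast
          rw [abs_neg, abs_of_nonneg (by positivity), Real.rpow_natCast]
          exact pow_le_pow_left₀ (Nat.cast_nonneg _) hn _
        · rw [hk']
          conv_lhs => rw [hci]
          push_cast
          rw [zpow_neg, zpow_natCast, div_pow, inv_div]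
    choose A B hA hB hAH hBH hAB using one
    refine ⟨∏ i ∈ s, A i, ∏ i ∈ s, B i, Finset.prod_pos fun i _ => hA i,
      Finset.prod_pos fun i _ => hB i, ?_, ?_, ?_⟩
    · push_cast
      rw [Real.rpow_sum_of_pos (show (0 : ℝ) < H by linarith)]
      exact Finset.prod_le_prod (fun i _ => Nat.cast_nonneg _) fun i _ => hAH i
    · push_cast
      rw [Real.rpow_sum_of_pos (show (0 : ℝ) < H by linarith)]
      exact Finset.prod_le_prod (fun i _ => Nat.cast_nonneg _) fun i _ => hBH i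
    · push_cast
      rw [← Finset.prod_div_distrib]
      exact Finset.prod_congr rfl fun i _ => hAB i
  obtain ⟨A, B, hA, hB, hAH, hBH, hAB⟩ := hrep
  have hM : H ^ (∑ i ∈ s, |(t i : ℝ)|) ≤ Real.exp (T * Real.log H) := by
    rw [Real.rpow_def_of_pos (by linarith)]
    apply Real.exp_le_exp.mpr
    have := Real.log_nonneg hH
    nlinarith
  exact ⟨A, B, hA, hB, hAH.trans hM, hBH.trans hM, hAB⟩

theorem htLe_of_div {x : ℚ} {A B : ℕ} {K : ℝ} (hA0 : 0 < A) (hB0 : 0 < B) (hA : (A : ℝ) ≤ K)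
    (hB : (B : ℝ) ≤ K) (hx : x = A / B) : HtLe K x := by
  have hBq : (B : ℚ) ≠ 0 := by exact_mod_cast hB0.ne'
  have h1 : x = ((A : ℤ) : ℚ) / ((B : ℤ) : ℚ) := by rw [hx]; push_cast; rfl
  have hnum : x.num ∣ (A : ℤ) := by
    rw [h1, ← Rat.divInt_eq_div]
    exact Rat.num_dvd _ (by exact_mod_cast hB0.ne')
  have hden : (x.den : ℤ) ∣ (B : ℤ) := by
    rw [h1, ← Rat.divInt_eq_div]
    exact Rat.den_dvd _ _
  constructor
  · have h2 : |x.num| ≤ (A : ℤ) := by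
      apply Int.le_of_dvd (by exact_mod_cast hA0)
      exact (abs_dvd _ _).mpr hnum
    calc |(x.num : ℝ)| = ((|x.num| : ℤ) : ℝ) := by push_cast; rfl
      _ ≤ ((A : ℤ) : ℝ) := by exact_mod_cast h2
      _ ≤ K := by push_cast; exact hA
  · have h2 : x.den ≤ B := Nat.le_of_dvd hB0 (by exact_mod_cast hden)
    exact le_trans (by exact_mod_cast h2) hB

variable {p : ℕ} [hp : Fact p.Prime]

theorem near_le_one {u : PadicAlgCl p} (hu : ‖u - 1‖ * (p : ℝ) ^ 3 ≤ 1) : ‖u - 1‖ ≤ 1 := by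
  have hp1 : (1 : ℝ) ≤ (p : ℝ) ^ 3 := one_le_pow₀ (by exact_mod_cast hp.out.one_lt.le)
  have := norm_nonneg (u - 1)
  nlinarith

theorem near_norm_le {u : PadicAlgCl p} (hu : ‖u - 1‖ * (p : ℝ) ^ 3 ≤ 1) : ‖u‖ ≤ 1 := by
  have h1 := IsUltrametricDist.norm_add_le_max (u - 1) 1
  rw [sub_add_cancel, norm_one] at h1
  exact h1.trans (max_le (near_le_one hu) le_rfl)

theorem near_lt_one {u : PadicAlgCl p} (hu : ‖u - 1‖ * (p : ℝ) ^ 3 ≤ 1) : ‖u - 1‖ < 1 := by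
  have hp1 : (1 : ℝ) < (p : ℝ) ^ 3 :=
    one_lt_pow₀ (by exact_mod_cast hp.out.one_lt) (by norm_num)
  have := norm_nonneg (u - 1)
  nlinarith

theorem near_norm {u : PadicAlgCl p} (hu : ‖u - 1‖ * (p : ℝ) ^ 3 ≤ 1) : ‖u‖ = 1 := by
  apply le_antisymm (near_norm_le hu)
  by_contra hcon
  push Not at hcon
  have h1 := IsUltrametricDist.norm_add_le_max (1 - u) u
  rw [sub_add_cancel, norm_one] at h1
  have h2 : ‖1 - u‖ < 1 := by rw [norm_sub_rev]; exact near_lt_one hu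
  exact absurd (h1.trans_lt (max_lt h2 hcon)) (lt_irrefl _)

theorem near_one : ‖(1 : PadicAlgCl p) - 1‖ * (p : ℝ) ^ 3 ≤ 1 := by
  rw [sub_self, norm_zero, zero_mul]; norm_num

theorem near_mul {u v : PadicAlgCl p} (hu : ‖u - 1‖ * (p : ℝ) ^ 3 ≤ 1)
    (hv : ‖v - 1‖ * (p : ℝ) ^ 3 ≤ 1) : ‖u * v - 1‖ * (p : ℝ) ^ 3 ≤ 1 := by
  have e : u * v - 1 = (u - 1) * v + (v - 1) := by ring
  have h1 : ‖(u - 1) * v‖ ≤ ‖u - 1‖ := by
    rw [norm_mul, near_norm hv, mul_one]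
  have h2 := IsUltrametricDist.norm_add_le_max ((u - 1) * v) (v - 1)
  rw [← e] at h2
  have hp3 : (0 : ℝ) ≤ (p : ℝ) ^ 3 := by positivity
  rcases le_total ‖u - 1‖ ‖v - 1‖ with h | h
  · exact (mul_le_mul_of_nonneg_right (h2.trans (max_le (h1.trans h) le_rfl)) hp3).trans hv
  · exact (mul_le_mul_of_nonneg_right (h2.trans (max_le h1 h)) hp3).trans hu

theorem near_inv {u : PadicAlgCl p} (hu : ‖u - 1‖ * (p : ℝ) ^ 3 ≤ 1) :
    ‖u⁻¹ - 1‖ * (p : ℝ) ^ 3 ≤ 1 := by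
  have hu0 : u ≠ 0 := by
    intro h
    have := near_norm hu
    rw [h, norm_zero] at this
    exact zero_ne_one this
  have e : u⁻¹ - 1 = (1 - u) * u⁻¹ := by field_simp
  rw [e, norm_mul, norm_inv, near_norm hu, inv_one, mul_one, norm_sub_rev]
  exact hu

theorem near_pow {u : PadicAlgCl p} (hu : ‖u - 1‖ * (p : ℝ) ^ 3 ≤ 1) (n : ℕ) :
    ‖u ^ n - 1‖ * (p : ℝ) ^ 3 ≤ 1 := by
  induction n with
  | zero => rw [pow_zero]; exact near_one
  | succ n ih => rw [pow_succ]; exact near_mul ih hu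

theorem near_zpow {u : PadicAlgCl p} (hu : ‖u - 1‖ * (p : ℝ) ^ 3 ≤ 1) (n : ℤ) :
    ‖u ^ n - 1‖ * (p : ℝ) ^ 3 ≤ 1 := by
  obtain ⟨m, rfl | rfl⟩ := n.eq_nat_or_neg
  · rw [zpow_natCast]; exact near_pow hu m
  · rw [zpow_neg, zpow_natCast]; exact near_inv (near_pow hu m)

theorem near_prod {ι : Type*} (s : Finset ι) (f : ι → PadicAlgCl p)
    (hf : ∀ i ∈ s, ‖f i - 1‖ * (p : ℝ) ^ 3 ≤ 1) : ‖(∏ i ∈ s, f i) - 1‖ * (p : ℝ) ^ 3 ≤ 1 := by
  classical
  induction s using Finset.induction_on with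
  | empty => rw [Finset.prod_empty]; exact near_one
  | insert i s hi ih =>
    rw [Finset.prod_insert hi]
    exact near_mul (hf i (mem_insert_self _ _)) (ih fun j hj => hf j (mem_insert_of_mem hj))

variable {L : PadicAlgCl p → PadicAlgCl p}

/-- near `1` the logarithm is an isometry -/
theorem norm_log (hL : IsIwasawaLog p L) {u : PadicAlgCl p} (hu : ‖u - 1‖ * (p : ℝ) ^ 3 ≤ 1) :
    ‖L u‖ = ‖u - 1‖ := by
  by_cases h0 : u - 1 = 0
  · have h1 : u = 1 := sub_eq_zero.mp h0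
    rw [h1, hL.one, sub_self]
  have hpos : 0 < ‖u - 1‖ := norm_pos_iff.mpr h0
  have h1 := hL.approx hu
  rw [add_sub_cancel] at h1
  have hp2 : (2 : ℝ) ≤ p := by exact_mod_cast hp.out.two_le
  have h2 : ‖L u - (u - 1)‖ < ‖u - 1‖ := by
    refine h1.trans_lt ?_
    have h4 : (p : ℝ) * ‖u - 1‖ < 1 := by
      have h5 : ‖u - 1‖ * p * 4 ≤ 1 := by
        refine le_trans ?_ hu
        have : (p : ℝ) * 4 ≤ (p : ℝ) ^ 3 := by
          have h6 : (2 : ℝ) ^ 2 ≤ (p : ℝ) ^ 2 := pow_le_pow_left₀ (by norm_num) hp2 2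
          nlinarith
        calc ‖u - 1‖ * p * 4 = ‖u - 1‖ * (p * 4) := by ring
          _ ≤ ‖u - 1‖ * (p : ℝ) ^ 3 := by gcongr
      nlinarith
    calc (p : ℝ) * ‖u - 1‖ ^ 2 = (p * ‖u - 1‖) * ‖u - 1‖ := by ring
      _ < 1 * ‖u - 1‖ := by gcongr
      _ = _ := one_mul _
  apply le_antisymm
  · have h3 := IsUltrametricDist.norm_add_le_max (L u - (u - 1)) (u - 1)
    rw [sub_add_cancel] at h3
    exact h3.trans (max_le h2.le le_rfl)
  · by_contra hcon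
    push Not at hcon
    have h3 := IsUltrametricDist.norm_add_le_max (-(L u - (u - 1))) (L u)
    rw [norm_neg, show -(L u - (u - 1)) + L u = u - 1 by ring] at h3
    exact absurd (h3.trans_lt (max_lt h2 hcon)) (lt_irrefl _)

theorem norm_ratCast_alg (x : ℚ) : ‖((x : ℚ) : PadicAlgCl p)‖ = ‖((x : ℚ) : ℚ_[p])‖ := by
  have h := PadicAlgCl.norm_extends p ((x : ℚ) : ℚ_[p])
  rw [← h]
  congr 1

/-- the `p`-adic norm of a nonzero integer is not smaller than the inverse of its absolute value -/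
theorem int_lower {z : ℤ} (hz : z ≠ 0) : (|(z : ℝ)|)⁻¹ ≤ ‖((z : ℤ) : ℚ_[p])‖ := by
  have hz' : ((z : ℤ) : ℚ_[p]) ≠ 0 := by exact_mod_cast hz
  have hp0 : (0 : ℝ) < p := by exact_mod_cast hp.out.pos
  rw [Padic.norm_eq_zpow_neg_valuation hz', Padic.valuation_intCast, zpow_neg, zpow_natCast]
  apply inv_anti₀ (by positivity)
  have h1 : ((p : ℤ) ^ padicValInt p z) ∣ z := padicValInt_dvd z
  have h2 := Int.le_of_dvd (abs_pos.mpr hz) ((dvd_abs _ _).mpr h1)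
  have h3 : (((p : ℤ) ^ padicValInt p z : ℤ) : ℝ) ≤ ((|z| : ℤ) : ℝ) := by exact_mod_cast h2
  push_cast at h3
  exact h3

/-- lower bound for logarithms of rational numbers close to `1` -/
theorem log_lower (hL : IsIwasawaLog p L) {x : ℚ} (hx1 : x ≠ 1) {A B : ℕ} {K : ℝ}
    (hB0 : 0 < B) (hA : (A : ℝ) ≤ K) (hB : (B : ℝ) ≤ K) (hx : x = A / B)
    (hnear : ‖((x : ℚ) : PadicAlgCl p) - 1‖ * (p : ℝ) ^ 3 ≤ 1) :
    K⁻¹ ≤ ‖L ((x : ℚ) : PadicAlgCl p)‖ := by
  rw [norm_log hL hnear]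
  have hBq : (B : ℚ) ≠ 0 := by exact_mod_cast hB0.ne'
  have e1 : ((B : ℕ) : ℚ) * (x - 1) = (((A : ℤ) - B : ℤ) : ℚ) := by
    rw [hx]; push_cast; field_simp
  have hne : ((A : ℤ) - B : ℤ) ≠ 0 := by
    intro h
    rw [h, Int.cast_zero] at e1
    rcases mul_eq_zero.mp e1 with h2 | h2
    · exact hBq h2
    · exact hx1 (by linarith)
  have e2 : ‖((x : ℚ) : PadicAlgCl p) - 1‖ = ‖((x - 1 : ℚ) : ℚ_[p])‖ := by
    rw [← norm_ratCast_alg]; push_cast; rfl
  rw [e2]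
  have e3 : ‖(((A : ℤ) - B : ℤ) : ℚ_[p])‖ ≤ ‖((x - 1 : ℚ) : ℚ_[p])‖ := by
    have h2 := congrArg (fun z : ℚ => ‖(z : ℚ_[p])‖) e1
    simp only [Rat.cast_mul, Rat.cast_natCast, norm_mul, Rat.cast_intCast] at h2
    rw [← h2]
    have h3 : ‖((B : ℕ) : ℚ_[p])‖ ≤ 1 := by
      have := Padic.norm_int_le_one (p := p) (B : ℤ)
      simpa using this
    calc ‖((B : ℕ) : ℚ_[p])‖ * ‖((x - 1 : ℚ) : ℚ_[p])‖ ≤ 1 * ‖((x - 1 : ℚ) : ℚ_[p])‖ :=
          mul_le_mul_of_nonneg_right h3 (norm_nonneg _)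
      _ = _ := one_mul _
  refine le_trans ?_ ((int_lower hne).trans e3)
  apply inv_anti₀
  · have : (((A : ℤ) - B : ℤ) : ℝ) ≠ 0 := by exact_mod_cast hne
    positivity
  · push_cast
    rw [abs_le]
    have hA' : (0 : ℝ) ≤ A := Nat.cast_nonneg _
    have hB' : (0 : ℝ) ≤ B := Nat.cast_nonneg _
    constructor <;> linarith

end Pool.Agent.L0h53.PS
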