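import Mathlib

set_option autoImplicit false

/-! The algebraic part of the `p`-adic auxiliary construction. -/

namespace Pool.Agent.L0h53.PS

open Finset

/-- If the binomial moments of the coefficients are divisible by `π ^ U` then so is the exponential
sum at every pair `(A, B)` with `A ≡ 1` modulo `π` and `B ≡ A ^ τ` modulo `π ^ U`. -/
theorem expsum_dvd {R : Type*} [CommRing R] {π A B : R} {U τ : ℕ} (hA : π ∣ A - 1)
    (hB : π ^ U ∣ B - A ^ τ) {J : Type*} [Fintype J] (c : J → ℤ) (k0 k1 : J → ℕ)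
    (hc : ∀ ν < U, π ^ U ∣ ∑ j, (c j : R) * ((Nat.choose (k0 j + k1 j * τ) ν : ℕ) : R)) :
    π ^ U ∣ ∑ j, (c j : R) * (A ^ k0 j * B ^ k1 j) := by
  obtain ⟨X, hX⟩ : ∃ X : ℕ, ∀ j, k0 j + k1 j * τ < X :=
    ⟨(∑ j, (k0 j + k1 j * τ)) + 1, fun j => Nat.lt_succ_of_le
      (Finset.single_le_sum (f := fun j => k0 j + k1 j * τ) (fun _ _ => Nat.zero_le _)
        (Finset.mem_univ j))⟩
  have hpow : ∀ j, A ^ (k0 j + k1 j * τ) =
      ∑ ν ∈ range X, (A - 1) ^ ν * ((Nat.choose (k0 j + k1 j * τ) ν : ℕ) : R) := by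
    intro j
    have h1 := add_pow (A - 1) 1 (k0 j + k1 j * τ)
    rw [sub_add_cancel] at h1
    rw [h1]
    have h2 : range (k0 j + k1 j * τ + 1) ⊆ range X := Finset.range_subset_range.mpr (hX j)
    rw [← Finset.sum_subset h2]
    · exact Finset.sum_congr rfl fun ν _ => by rw [one_pow, mul_one]
    · intro ν _ hν
      rw [Finset.mem_range, not_lt] at hν
      rw [Nat.choose_eq_zero_of_lt (by omega), Nat.cast_zero, mul_zero]
  have h1 : ∑ j, (c j : R) * (A ^ k0 j * B ^ k1 j) =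
      ∑ j, (c j : R) * A ^ (k0 j + k1 j * τ) +
        ∑ j, (c j : R) * (A ^ k0 j * (B ^ k1 j - (A ^ τ) ^ k1 j)) := by
    rw [← Finset.sum_add_distrib]
    refine Finset.sum_congr rfl fun j _ => ?_
    rw [pow_add, mul_comm (k1 j) τ, pow_mul]
    ring
  rw [h1]
  apply dvd_add
  · have h2 : ∑ j, (c j : R) * A ^ (k0 j + k1 j * τ) =
        ∑ ν ∈ range X, (A - 1) ^ ν *
          ∑ j, (c j : R) * ((Nat.choose (k0 j + k1 j * τ) ν : ℕ) : R) := by
      simp only [hpow, Finset.mul_sum]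
      rw [Finset.sum_comm]
      refine Finset.sum_congr rfl fun ν _ => Finset.sum_congr rfl fun j _ => by ring
    rw [h2]
    apply Finset.dvd_sum
    intro ν _
    rcases Nat.lt_or_ge ν U with hν | hν
    · exact Dvd.dvd.mul_left (hc ν hν) _
    · exact Dvd.dvd.mul_right ((pow_dvd_pow π hν).trans (pow_dvd_pow_of_dvd hA ν)) _
  · apply Finset.dvd_sum
    intro j _
    exact Dvd.dvd.mul_left (Dvd.dvd.mul_left (hB.trans (sub_dvd_pow_sub_pow B (A ^ τ) (k1 j))) _) _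

/-- the pigeonhole principle modulo `q` -/
theorem pigeon {J : Type*} [Fintype J] [DecidableEq J] (q U P : ℕ) (hq : 1 ≤ q) (f : J → Fin U → ℤ)
    (h : q ^ U < (P + 1) ^ Fintype.card J) :
    ∃ c : J → ℤ, c ≠ 0 ∧ (∀ j, |c j| ≤ P) ∧ ∀ ν, (q : ℤ) ∣ ∑ j, c j * f j ν := by
  have : NeZero q := ⟨by omega⟩
  let g : (J → Fin (P + 1)) → (Fin U → ZMod q) := fun x ν =>
    ∑ j, (((x j : ℕ) : ℤ) : ZMod q) * ((f j ν : ℤ) : ZMod q)
  have hcard : Fintype.card (Fin U → ZMod q) < Fintype.card (J → Fin (P + 1)) := by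
    rw [Fintype.card_fun, Fintype.card_fun, Fintype.card_fin, Fintype.card_fin, ZMod.card]
    exact h
  obtain ⟨x, y, hxy, hg⟩ := Fintype.exists_ne_map_eq_of_card_lt g hcard
  refine ⟨fun j => ((x j : ℕ) : ℤ) - ((y j : ℕ) : ℤ), ?_, ?_, ?_⟩
  · intro h0
    apply hxy
    funext j
    have := congrFun h0 j
    simp only [Pi.zero_apply] at this
    apply Fin.ext
    omega
  · intro j
    have h1 := (x j).2
    have h2 := (y j).2
    change |((x j : ℕ) : ℤ) - ((y j : ℕ) : ℤ)| ≤ P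
    rw [abs_le]
    constructor <;> omega
  · intro ν
    have h1 := congrFun hg ν
    simp only [g] at h1
    rw [← ZMod.intCast_zmod_eq_zero_iff_dvd]
    push_cast
    simp only [sub_mul, Finset.sum_sub_distrib]
    rw [sub_eq_zero]
    push_cast at h1
    exact h1

/-- the integer obtained from the exponential sum by multiplication with a denominator -/
theorem clear_eq {R : Type*} [CommRing R] {M : ℕ} {l : ℕ} (a b : Fin l → R)
    (x y u v : Fin l → ℤ) (hx : ∀ q, (x q : R) = (y q : R) * a q)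
    (hu : ∀ q, (u q : R) = (v q : R) * b q) {J : Type*} [Fintype J] (c : J → ℤ) (k0 k1 : J → ℕ)
    (hk0 : ∀ j, k0 j ≤ M) (hk1 : ∀ j, k1 j ≤ M) (s : Fin l → ℕ) :
    ((∑ j, c j * ((∏ q, x q ^ s q) ^ k0 j * (∏ q, y q ^ s q) ^ (M - k0 j) *
      ((∏ q, u q ^ s q) ^ k1 j * (∏ q, v q ^ s q) ^ (M - k1 j))) : ℤ) : R) =
      ((∏ q, (y q : R) ^ s q) ^ M * (∏ q, (v q : R) ^ s q) ^ M) *
        ∑ j, (c j : R) * ((∏ q, a q ^ s q) ^ k0 j * (∏ q, b q ^ s q) ^ k1 j) := by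
  have hX : (∏ q, (x q : R) ^ s q) = (∏ q, (y q : R) ^ s q) * ∏ q, a q ^ s q := by
    rw [← Finset.prod_mul_distrib]
    exact Finset.prod_congr rfl fun q _ => by rw [hx, mul_pow]
  have hY : (∏ q, (u q : R) ^ s q) = (∏ q, (v q : R) ^ s q) * ∏ q, b q ^ s q := by
    rw [← Finset.prod_mul_distrib]
    exact Finset.prod_congr rfl fun q _ => by rw [hu, mul_pow]
  push_cast
  rw [Finset.mul_sum]
  refine Finset.sum_congr rfl fun j _ => ?_
  rw [hX, hY, mul_pow, mul_pow]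
  have e1 : (∏ q, (y q : R) ^ s q) ^ M = (∏ q, (y q : R) ^ s q) ^ k0 j *
      (∏ q, (y q : R) ^ s q) ^ (M - k0 j) := by
    rw [← pow_add]; congr 1; have := hk0 j; omega
  have e2 : (∏ q, (v q : R) ^ s q) ^ M = (∏ q, (v q : R) ^ s q) ^ k1 j *
      (∏ q, (v q : R) ^ s q) ^ (M - k1 j) := by
    rw [← pow_add]; congr 1; have := hk1 j; omega
  rw [e1, e2]
  ring

/-- divisibility of the exponential sums at products -/
theorem prod_dvd {R : Type*} [CommRing R] {π : R} {U τ : ℕ} {l : ℕ} (a b : Fin l → R)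
    (ha : ∀ q, π ∣ a q - 1) (hb : ∀ q, π ^ U ∣ b q - a q ^ τ) {J : Type*} [Fintype J] (c : J → ℤ)
    (k0 k1 : J → ℕ)
    (hc : ∀ ν < U, π ^ U ∣ ∑ j, (c j : R) * ((Nat.choose (k0 j + k1 j * τ) ν : ℕ) : R))
    (s : Fin l → ℕ) :
    π ^ U ∣ ∑ j, (c j : R) * ((∏ q, a q ^ s q) ^ k0 j * (∏ q, b q ^ s q) ^ k1 j) := by
  have hpr : π ∣ (∏ q, a q ^ s q) - 1 := by
    have h1 : ∀ q, π ∣ a q ^ s q - 1 := by
      intro q
      have := sub_dvd_pow_sub_pow (a q) 1 (s q)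
      rw [one_pow] at this
      exact (ha q).trans this
    have key : ∀ S : Finset (Fin l), π ∣ (∏ q ∈ S, a q ^ s q) - 1 := by
      intro S
      induction S using Finset.induction_on with
      | empty => simp
      | insert q S hq ih =>
        rw [Finset.prod_insert hq]
        have e : a q ^ s q * (∏ i ∈ S, a i ^ s i) - 1 =
            a q ^ s q * ((∏ i ∈ S, a i ^ s i) - 1) + (a q ^ s q - 1) := by ring
        rw [e]
        exact dvd_add (Dvd.dvd.mul_left ih _) (h1 q)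
    exact key _
  have hprB : π ^ U ∣ (∏ q, b q ^ s q) - (∏ q, a q ^ s q) ^ τ := by
    have key : ∀ S : Finset (Fin l), π ^ U ∣ (∏ q ∈ S, b q ^ s q) - (∏ q ∈ S, a q ^ s q) ^ τ := by
      intro S
      induction S using Finset.induction_on with
      | empty => simp
      | insert q S hq ih =>
        rw [Finset.prod_insert hq, Finset.prod_insert hq]
        have e : b q ^ s q * (∏ i ∈ S, b i ^ s i) - (a q ^ s q * ∏ i ∈ S, a i ^ s i) ^ τ =
            b q ^ s q * ((∏ i ∈ S, b i ^ s i) - (∏ i ∈ S, a i ^ s i) ^ τ) +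
              (∏ i ∈ S, a i ^ s i) ^ τ * (b q ^ s q - (a q ^ τ) ^ s q) := by
          rw [mul_pow, ← pow_mul, ← pow_mul, mul_comm (s q) τ]; ring
        rw [e]
        exact dvd_add (Dvd.dvd.mul_left ih _)
          (Dvd.dvd.mul_left ((hb q).trans (sub_dvd_pow_sub_pow _ _ _)) _)
    exact key _
  exact expsum_dvd hpr hprB c k0 k1 hc

/-- **Vanishing of the exponential sums**: an integer which is divisible by `p ^ U` and smaller than
`p ^ U` vanishes. -/
theorem vanish {p : ℕ} [Fact p.Prime] {l M N U τ P : ℕ} (a b : Fin l → ℚ) {H : ℝ} (hH : 1 ≤ H)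
    (haH : ∀ q, (|(a q).num| : ℝ) ≤ H ∧ ((a q).den : ℝ) ≤ H)
    (hbH : ∀ q, (|(b q).num| : ℝ) ≤ H ∧ ((b q).den : ℝ) ≤ H)
    (ha : ∀ q, ‖((a q : ℚ) : ℚ_[p]) - 1‖ < 1)
    (hb : ∀ q, ‖((b q : ℚ) : ℚ_[p]) - ((a q : ℚ) : ℚ_[p]) ^ τ‖ ≤ (p : ℝ) ^ (-(U : ℤ)))
    {J : Type*} [Fintype J] (c : J → ℤ) (hcP : ∀ j, |c j| ≤ P) (k0 k1 : J → ℕ)
    (hk0 : ∀ j, k0 j ≤ M) (hk1 : ∀ j, k1 j ≤ M)
    (hc : ∀ ν < U, ((p ^ U : ℕ) : ℤ) ∣ ∑ j, c j * ((Nat.choose (k0 j + k1 j * τ) ν : ℕ) : ℤ))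
    (hsize : (Fintype.card J : ℝ) * P * H ^ (4 * l * M * N) < (p : ℝ) ^ U)
    (s : Fin l → ℕ) (hs : ∀ q, s q ≤ 2 * N) :
    ∑ j, (c j : ℚ) * ((∏ q, a q ^ s q) ^ k0 j * (∏ q, b q ^ s q) ^ k1 j) = 0 := by
  obtain ⟨Z, hZ⟩ : ∃ Z : ℤ, Z = ∑ j, c j * ((∏ q, (a q).num ^ s q) ^ k0 j *
      (∏ q, ((a q).den : ℤ) ^ s q) ^ (M - k0 j) *
      ((∏ q, (b q).num ^ s q) ^ k1 j * (∏ q, ((b q).den : ℤ) ^ s q) ^ (M - k1 j))) := ⟨_, rfl⟩
  -- divisibility
  have hnorm : ∀ z : ℚ_[p], ‖z - 1‖ < 1 → ‖z‖ ≤ 1 := by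
    intro z hz
    have h1 := IsUltrametricDist.norm_add_le_max (z - 1) 1
    rw [sub_add_cancel, norm_one] at h1
    exact h1.trans (max_le hz.le le_rfl)
  have hp1 : (1 : ℝ) < p := by exact_mod_cast (Fact.out : p.Prime).one_lt
  have hna : ∀ q, ‖((a q : ℚ) : ℚ_[p])‖ ≤ 1 := fun q => hnorm _ (ha q)
  have hnb : ∀ q, ‖((b q : ℚ) : ℚ_[p])‖ ≤ 1 := by
    intro q
    have h1 := IsUltrametricDist.norm_add_le_max (((b q : ℚ) : ℚ_[p]) - ((a q : ℚ) : ℚ_[p]) ^ τ)
      (((a q : ℚ) : ℚ_[p]) ^ τ)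
    rw [sub_add_cancel] at h1
    refine h1.trans (max_le ((hb q).trans ?_) ?_)
    · rw [zpow_neg, zpow_natCast]
      exact inv_le_one_of_one_le₀ (one_le_pow₀ hp1.le)
    · rw [norm_pow]
      exact pow_le_one₀ (norm_nonneg _) (hna q)
  let a' : Fin l → ℤ_[p] := fun q => ⟨((a q : ℚ) : ℚ_[p]), hna q⟩
  let b' : Fin l → ℤ_[p] := fun q => ⟨((b q : ℚ) : ℚ_[p]), hnb q⟩
  have hcast : ∀ (z : ℚ), ((z.num : ℤ) : ℚ_[p]) = ((z.den : ℤ) : ℚ_[p]) * (z : ℚ_[p]) := by
    intro z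
    have h1 := Rat.den_mul_eq_num z
    have h2 := congrArg (fun y : ℚ => (y : ℚ_[p])) h1
    push_cast at h2 ⊢
    exact h2.symm
  have hdvd : (p : ℤ_[p]) ^ U ∣ (Z : ℤ_[p]) := by
    rw [hZ, clear_eq a' b' (fun q => (a q).num) (fun q => ((a q).den : ℤ)) (fun q => (b q).num)
      (fun q => ((b q).den : ℤ)) ?_ ?_ c k0 k1 hk0 hk1 s]
    · apply Dvd.dvd.mul_left
      refine prod_dvd (U := U) (τ := τ) a' b' ?_ ?_ c k0 k1 ?_ s
      · intro q
        rw [← PadicInt.norm_lt_one_iff_dvd]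
        exact ha q
      · intro q
        rw [← Ideal.mem_span_singleton, ← PadicInt.norm_le_pow_iff_mem_span_pow]
        exact hb q
      · intro ν hν
        have h1 := hc ν hν
        have h2 := (PadicInt.pow_p_dvd_int_iff (p := p) U
          (∑ j, c j * ((Nat.choose (k0 j + k1 j * τ) ν : ℕ) : ℤ))).mpr (by
            push_cast at h1 ⊢
            exact h1)
        push_cast at h2
        exact h2
    · intro q
      apply Subtype.ext
      rw [PadicInt.coe_mul, PadicInt.coe_intCast, PadicInt.coe_intCast]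
      exact hcast (a q)
    · intro q
      apply Subtype.ext
      rw [PadicInt.coe_mul, PadicInt.coe_intCast, PadicInt.coe_intCast]
      exact hcast (b q)
  rw [PadicInt.pow_p_dvd_int_iff] at hdvd
  -- size
  have hprod : ∀ z : Fin l → ℤ, (∀ q, |(z q : ℝ)| ≤ H) →
      |((∏ q, z q ^ s q : ℤ) : ℝ)| ≤ H ^ (2 * l * N) := by
    intro z hz
    push_cast
    rw [Finset.abs_prod]
    calc ∏ q, |(z q : ℝ) ^ s q| ≤ ∏ q : Fin l, H ^ (2 * N) := by
          apply Finset.prod_le_prod (fun _ _ => abs_nonneg _)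
          intro q _
          rw [abs_pow]
          calc |(z q : ℝ)| ^ s q ≤ H ^ s q := pow_le_pow_left₀ (abs_nonneg _) (hz q) _
            _ ≤ H ^ (2 * N) := pow_le_pow_right₀ hH (hs q)
      _ = H ^ (2 * l * N) := by
          rw [Finset.prod_const, Finset.card_univ, Fintype.card_fin, ← pow_mul]
          congr 1; ring
  have hZsize : |(Z : ℝ)| ≤ (Fintype.card J : ℝ) * P * H ^ (4 * l * M * N) := by
    rw [hZ]
    push_cast
    refine (Finset.abs_sum_le_sum_abs _ _).trans ?_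
    have hterm : ∀ j ∈ (Finset.univ : Finset J), |(c j : ℝ) * ((∏ q, ((a q).num : ℝ) ^ s q) ^ k0 j *
        (∏ q, ((a q).den : ℝ) ^ s q) ^ (M - k0 j) *
        ((∏ q, ((b q).num : ℝ) ^ s q) ^ k1 j * (∏ q, ((b q).den : ℝ) ^ s q) ^ (M - k1 j)))| ≤
        P * H ^ (4 * l * M * N) := by
      intro j _
      have h1 := hprod (fun q => (a q).num) (fun q => (haH q).1)
      have h2 := hprod (fun q => ((a q).den : ℤ)) (fun q => by
        push_cast; rw [abs_of_nonneg (by positivity)]; exact (haH q).2)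
      have h3 := hprod (fun q => (b q).num) (fun q => (hbH q).1)
      have h4 := hprod (fun q => ((b q).den : ℤ)) (fun q => by
        push_cast; rw [abs_of_nonneg (by positivity)]; exact (hbH q).2)
      push_cast at h1 h2 h3 h4
      have hcj : |(c j : ℝ)| ≤ P := by exact_mod_cast hcP j
      rw [abs_mul, abs_mul, abs_mul, abs_mul, abs_pow, abs_pow, abs_pow, abs_pow]
      have e1 := pow_le_pow_left₀ (abs_nonneg _) h1 (k0 j)
      have e2 := pow_le_pow_left₀ (abs_nonneg _) h2 (M - k0 j)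
      have e3 := pow_le_pow_left₀ (abs_nonneg _) h3 (k1 j)
      have e4 := pow_le_pow_left₀ (abs_nonneg _) h4 (M - k1 j)
      have e5 : H ^ (4 * l * M * N) = ((H ^ (2 * l * N)) ^ k0 j * (H ^ (2 * l * N)) ^ (M - k0 j)) *
          ((H ^ (2 * l * N)) ^ k1 j * (H ^ (2 * l * N)) ^ (M - k1 j)) := by
        rw [← pow_add, ← pow_add, Nat.add_sub_cancel' (hk0 j), Nat.add_sub_cancel' (hk1 j),
          ← pow_mul, ← pow_add]
        congr 1; ring
      rw [e5]
      exact mul_le_mul hcj (mul_le_mul (mul_le_mul e1 e2 (by positivity) (by positivity))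
        (mul_le_mul e3 e4 (by positivity) (by positivity)) (by positivity) (by positivity))
        (by positivity) (by positivity)
    refine (Finset.sum_le_card_nsmul _ _ _ hterm).trans (le_of_eq ?_)
    rw [Finset.card_univ, nsmul_eq_mul]
    ring
  have hZ0 : Z = 0 := by
    apply Int.eq_zero_of_abs_lt_dvd hdvd
    have h1 : |(Z : ℝ)| < (p : ℝ) ^ U := lt_of_le_of_lt hZsize hsize
    exact_mod_cast h1
  -- conclusion
  have hq := clear_eq (R := ℚ) a b (fun q => (a q).num) (fun q => ((a q).den : ℤ))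
    (fun q => (b q).num) (fun q => ((b q).den : ℤ))
    (fun q => by push_cast; exact (Rat.den_mul_eq_num (a q)).symm)
    (fun q => by push_cast; exact (Rat.den_mul_eq_num (b q)).symm) c k0 k1 hk0 hk1 s
  rw [← hZ, hZ0, Int.cast_zero] at hq
  refine (mul_eq_zero.mp hq.symm).resolve_left ?_
  apply mul_ne_zero <;> apply pow_ne_zero <;> apply Finset.prod_ne_zero_iff.mpr <;> intro q _ <;>
    apply pow_ne_zero
  · have := (a q).den_nz
    exact_mod_cast this
  · have := (b q).den_nz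
    exact_mod_cast this

end Pool.Agent.L0h53.PS
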