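import Mathlib
import Pool.Agent.L0h53.NP.KeyRef
import Pool.Agent.L0h53.NP.CoreG
import Pool.Agent.L0h53.PS.Alg
import Pool.Agent.H335R2.Obs.Final

set_option autoImplicit false

/-! Zero estimate for the `p`-adic auxiliary polynomial. -/

namespace Pool.Agent.L0h53.PS

open Finset Module Pool.Agent.L0h53.NP Pool.Agent.H335R2.Obs Pool.Agent.H301R2.TR
  Pool.Agent.L0h39.QA

/-- a polynomial in two variables of degree at most `n ^ (σ + a)` which vanishes at the points of the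
box, and its obstruction subgroup -/
theorem obstruct {l n σ a : ℕ} (hn : 65 ≤ n) (hl : 2 * σ + 2 * a + 1 ≤ l * σ) (x y : Fin l → ℚ)
    (hx : ∀ q, x q ≠ 0) (hy : ∀ q, y q ≠ 0)
    (c : (Fin (n ^ (σ + a) + 1) × Fin (n ^ (σ + a) + 1)) → ℤ) (hc : c ≠ 0)
    (hvan : ∀ s : Fin l → ℕ, (∀ q, s q ≤ 2 * n ^ σ) →
      ∑ j, (c j : ℚ) * ((∏ q, x q ^ s q) ^ (j.1 : ℕ) * (∏ q, y q ^ s q) ^ (j.2 : ℕ)) = 0) :
    ∃ s : Fin l → ℤ, s ≠ 0 ∧ (∀ q, |s q| ≤ (n : ℤ) ^ σ) ∧ ∃ m0 m1 : ℤ, (m0 ≠ 0 ∨ m1 ≠ 0) ∧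
      (∏ q, x q ^ s q) ^ m0 * (∏ q, y q ^ s q) ^ m1 = 1 := by
  classical
  have hnpos : 0 < n := by omega
  obtain ⟨Af, Rm, W0, G0, -, h1, -, h3, l', h4, -, h6⟩ :=
    key_ineq_ref (w := 0) (b := 2) (l := l) ∅ (fun i _ => i.elim0) (fun i _ => i.elim0)
      (![fun q => ((x q : ℚ) : ℂ), fun q => ((y q : ℚ) : ℂ)] : Fin 2 → Fin l → ℂ) zeg
      (fun j q => by
        fin_cases j
        · change ((x q : ℚ) : ℂ) ≠ 0
          exact_mod_cast hx q
        · change ((y q : ℚ) : ℂ) ≠ 0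
          exact_mod_cast hy q)
      1 (n ^ (σ + a)) 0 (n ^ σ) le_rfl (Nat.one_le_pow _ _ hnpos)
      (J := Fin (n ^ (σ + a) + 1) × Fin (n ^ (σ + a) + 1)) (fun j => (c j : ℂ))
      (fun _ i => i.elim0) (fun j => ![(j.1 : ℕ), (j.2 : ℕ)])
      (fun _ i => i.elim0)
      (by
        intro j j' _ h
        apply Prod.ext
        · exact Fin.ext (congrFun h 0)
        · exact Fin.ext (congrFun h 1))
      (by
        intro h
        apply hc
        funext j
        have h5 : ((c j : ℤ) : ℂ) = 0 := congrFun h j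
        change c j = 0
        exact_mod_cast h5)
      (fun _ i => i.elim0)
      (fun j q => by
        fin_cases q
        · exact Nat.lt_succ_iff.mp j.1.2
        · exact Nat.lt_succ_iff.mp j.2.2)
      (by
        intro t s _ hs
        have h := hvan s (fun q => by simpa using hs q)
        have h' := congrArg (fun z : ℚ => (z : ℂ)) h
        simp only [Rat.cast_sum, Rat.cast_mul, Rat.cast_pow, Rat.cast_prod, Rat.cast_intCast,
          Rat.cast_zero] at h'
        rw [← h']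
        refine Finset.sum_congr rfl fun j _ => ?_
        unfold entG
        rw [Fin.prod_univ_two]
        simp)
  have hAf : Af = ⊥ := Subsingleton.elim _ _
  have hAf0 : finrank ℂ Af = 0 := by rw [hAf, finrank_bot]
  have hRm : Rm ≠ ⊥ := fun h => h1 ⟨hAf, h⟩
  have hR2 : finrank ℤ Rm ≤ 2 := rank_le Rm
  have hl'0 : l' = 0 := by omega
  -- a small element of the obstruction subgroup
  obtain ⟨s, hsG, hsN, hs0⟩ : ∃ s ∈ G0, (∀ q, |s q| ≤ (n : ℤ) ^ σ) ∧ s ≠ 0 := by
    by_contra hcon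
    push Not at hcon
    let Δs : Finset (Fin l → ℤ) := Fintype.piFinset (fun _ => Finset.Icc (0 : ℤ) ((n : ℤ) ^ σ))
    have hΔ : ∀ s ∈ Δs, ∀ q, 0 ≤ s q ∧ s q ≤ (n : ℤ) ^ σ := by
      intro s hs q
      rw [Fintype.mem_piFinset] at hs
      exact Finset.mem_Icc.mp (hs q)
    have hcard : Δs.card = (n ^ σ + 1) ^ l := by
      rw [Fintype.card_piFinset]
      have e : (Finset.Icc (0 : ℤ) ((n : ℤ) ^ σ)).card = n ^ σ + 1 := by
        rw [Int.card_Icc, sub_zero]
        have : ((n : ℤ) ^ σ + 1) = ((n ^ σ + 1 : ℕ) : ℤ) := by push_cast; ring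
        rw [this, Int.toNat_natCast]
      rw [e, Finset.prod_const, Finset.card_univ, Fintype.card_fin]
    have h7 := h6 Δs (by
        intro s hs q
        obtain ⟨e1, e2⟩ := hΔ s hs q
        exact ⟨e1, by push_cast; exact e2⟩)
      (by
        intro s hs s' hs' h
        have := hcon (s - s') h (fun q => by
          obtain ⟨e1, e2⟩ := hΔ s hs q
          obtain ⟨e3, e4⟩ := hΔ s' hs' q
          rw [Pi.sub_apply, abs_le]
          constructor <;> linarith)
        exact sub_eq_zero.mp this)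
    rw [hcard, hl'0, pow_zero, mul_one, hAf0, pow_zero, one_mul, Finset.card_empty] at h7
    have h8 : n ^ (l * σ) ≤ 64 * n ^ (2 * σ + 2 * a) := by
      calc n ^ (l * σ) = (n ^ σ) ^ l := by rw [← pow_mul, mul_comm]
        _ ≤ (n ^ σ + 1) ^ l := Nat.pow_le_pow_left (by omega) _
        _ ≤ _ := h7
        _ ≤ 64 * (n ^ (σ + a)) ^ 2 := by
            apply Nat.mul_le_mul (by norm_num)
            exact Nat.pow_le_pow_right (Nat.one_le_pow _ _ hnpos) hR2
        _ = _ := by rw [← pow_mul]; congr 2; ring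
    have h9 : n ^ (2 * σ + 2 * a + 1) ≤ n ^ (l * σ) := Nat.pow_le_pow_right hnpos hl
    rw [pow_succ] at h9
    have h10 : 0 < n ^ (2 * σ + 2 * a) := Nat.pow_pos hnpos
    nlinarith
  obtain ⟨m, hmR, hm0⟩ := exists_ne hRm
  refine ⟨s, hs0, hsN, m 0, m 1, ?_, ?_⟩
  · by_contra hcc
    push Not at hcc
    apply hm0
    funext i
    fin_cases i
    · exact hcc.1
    · exact hcc.2
  · obtain ⟨-, e2⟩ := (h3 s).mp hsG
    have e3 := e2 m hmR
    rw [Fin.prod_univ_two] at e3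
    have e4 : (∏ p, ((x p : ℚ) : ℂ) ^ s p) ^ m 0 * (∏ p, ((y p : ℚ) : ℂ) ^ s p) ^ m 1 = 1 := e3
    exact_mod_cast e4

end Pool.Agent.L0h53.PS
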