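import Mathlib
import Pool.Agent.L0h53.PS.Log

set_option autoImplicit false

/-! The analysis of the obstruction: a short multiplicative relation between the products `∏ x ^ s`
and `∏ y ^ s` gives a dependence of the rows or of the columns. -/

namespace Pool.Agent.L0h53.PS

open Finset Pool.Agent.L0h53.NP Pool.Agent.W245.PB

variable {p : ℕ} [hp : Fact p.Prime] {L : PadicAlgCl p → PadicAlgCl p}

theorem log_ratProd (hL : IsIwasawaLog p L) {l : ℕ} (a : Fin l → ℚ) (ha : ∀ q, 0 < a q)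
    (s : Fin l → ℤ) : L ((∏ q, a q ^ s q : ℚ) : PadicAlgCl p) =
      ∑ q, (s q : PadicAlgCl p) * L ((a q : ℚ) : PadicAlgCl p) := by
  have hne : ∀ q, ((a q : ℚ) : PadicAlgCl p) ≠ 0 := fun q => by exact_mod_cast (ha q).ne'
  push_cast
  rw [hL.prod _ _ fun q _ => zpow_ne_zero _ (hne q)]
  exact Finset.sum_congr rfl fun q _ => hL.zpow (hne q) _

theorem near_ratProd {l : ℕ} (a : Fin l → ℚ)
    (hna : ∀ q, ‖((a q : ℚ) : PadicAlgCl p) - 1‖ * (p : ℝ) ^ 3 ≤ 1) (s : Fin l → ℤ) :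
    ‖((∏ q, a q ^ s q : ℚ) : PadicAlgCl p) - 1‖ * (p : ℝ) ^ 3 ≤ 1 := by
  push_cast
  exact near_prod _ _ fun q _ => near_zpow (hna q) _

theorem sum_abs_le {l N : ℕ} (s : Fin l → ℤ) (hs : ∀ q, |s q| ≤ N) :
    ∑ q, |(s q : ℝ)| ≤ l * N := by
  have : ∀ q ∈ (Finset.univ : Finset (Fin l)), |(s q : ℝ)| ≤ N := by
    intro q _
    have := hs q
    exact_mod_cast this
  refine (Finset.sum_le_card_nsmul _ _ _ this).trans (le_of_eq ?_)
  rw [Finset.card_univ, Fintype.card_fin, nsmul_eq_mul]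

/-- **The degenerate case.** -/
theorem degenerate (hL : IsIwasawaLog p L) {l N : ℕ} (hl : 1 ≤ l) (hN : 1 ≤ N) {H : ℝ} (hH : 3 ≤ H)
    (a b : Fin l → ℚ) (hap : ∀ q, 0 < a q) (hbp : ∀ q, 0 < b q) (haH : ∀ q, HtLe H (a q))
    (hbH : ∀ q, HtLe H (b q))
    (hna : ∀ q, ‖((a q : ℚ) : PadicAlgCl p) - 1‖ * (p : ℝ) ^ 3 ≤ 1)
    (hnb : ∀ q, ‖((b q : ℚ) : PadicAlgCl p) - 1‖ * (p : ℝ) ^ 3 ≤ 1)
    (hrow : ∀ t0 t1 : ℤ, (∀ q, (t0 : PadicAlgCl p) * L ((a q : ℚ) : PadicAlgCl p) +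
      (t1 : PadicAlgCl p) * L ((b q : ℚ) : PadicAlgCl p) = 0) → t0 = 0 ∧ t1 = 0)
    (hcol : ∀ s : Fin l → ℤ, ∑ q, (s q : PadicAlgCl p) * L ((a q : ℚ) : PadicAlgCl p) = 0 →
      ∑ q, (s q : PadicAlgCl p) * L ((b q : ℚ) : PadicAlgCl p) = 0 → s = 0)
    (τ : ℕ) {δ : ℝ}
    (hδ : ∀ q, ‖L ((b q : ℚ) : PadicAlgCl p) - (τ : PadicAlgCl p) * L ((a q : ℚ) : PadicAlgCl p)‖ ≤ δ)
    (hsmall : δ * Real.exp (l * N * Real.log H + 4 * l * N * Real.log H * Real.log H) < 1)
    (s : Fin l → ℤ) (hs0 : s ≠ 0) (hsN : ∀ q, |s q| ≤ N) (m0 m1 : ℤ) (hm : m0 ≠ 0 ∨ m1 ≠ 0)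
    (hrel : (∏ q, a q ^ s q) ^ m0 * (∏ q, b q ^ s q) ^ m1 = 1) : False := by
  have hlog : 1 ≤ Real.log H := by
    rw [Real.le_log_iff_exp_le (by linarith)]
    have := Real.exp_one_lt_d9
    linarith
  have hlR : (1 : ℝ) ≤ l := by exact_mod_cast hl
  have hNR : (1 : ℝ) ≤ N := by exact_mod_cast hN
  have hlN : (1 : ℝ) ≤ l * N := by nlinarith
  obtain ⟨q0⟩ : Nonempty (Fin l) := ⟨⟨0, by omega⟩⟩
  have hδ0 : 0 ≤ δ := (norm_nonneg _).trans (hδ q0)
  obtain ⟨K, hK⟩ : ∃ K, K = Real.exp (l * N * Real.log H) := ⟨_, rfl⟩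
  obtain ⟨K2, hK2⟩ : ∃ K2, K2 = Real.exp (4 * l * N * Real.log H * Real.log H) := ⟨_, rfl⟩
  rw [Real.exp_add, ← hK, ← hK2] at hsmall
  have hK1 : 3 ≤ K := by
    rw [hK]
    calc (3 : ℝ) ≤ H := hH
      _ = Real.exp (Real.log H) := (Real.exp_log (by linarith)).symm
      _ ≤ _ := Real.exp_le_exp.mpr (by nlinarith)
  have hK21 : 1 ≤ K2 := by
    rw [hK2]
    exact Real.one_le_exp (by positivity)
  have hlogK : Real.log K = l * N * Real.log H := by rw [hK, Real.log_exp]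
  -- the products
  obtain ⟨α, hα⟩ : ∃ α : ℚ, α = ∏ q, a q ^ s q := ⟨_, rfl⟩
  obtain ⟨β, hβ⟩ : ∃ β : ℚ, β = ∏ q, b q ^ s q := ⟨_, rfl⟩
  rw [← hα, ← hβ] at hrel
  have hαp : 0 < α := by rw [hα]; exact Finset.prod_pos fun i _ => zpow_pos (hap i) _
  have hβp : 0 < β := by rw [hβ]; exact Finset.prod_pos fun i _ => zpow_pos (hbp i) _
  have hLα := log_ratProd hL a hap s
  have hLβ := log_ratProd hL b hbp s
  have hnα := near_ratProd a hna s
  have hnβ := near_ratProd b hnb s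
  rw [← hα] at hLα hnα
  rw [← hβ] at hLβ hnβ
  obtain ⟨A0, B0, hA0, hB0, hAK, hBK, hαAB⟩ :=
    rep_prod Finset.univ a hap s (H := H) (by linarith) haH (l * N) (sum_abs_le s hsN)
  obtain ⟨A1, B1, hA1, hB1, hAK1, hBK1, hβAB⟩ :=
    rep_prod Finset.univ b hbp s (H := H) (by linarith) hbH (l * N) (sum_abs_le s hsN)
  rw [← hα] at hαAB
  rw [← hβ] at hβAB
  rw [← hK] at hAK hBK hAK1 hBK1
  have hαH : HtLe K α := htLe_of_div hA0 hB0 hAK hBK hαAB
  have hβH : HtLe K β := htLe_of_div hA1 hB1 hAK1 hBK1 hβAB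
  -- the difference of the logarithms
  have hdiff : ‖L ((β : ℚ) : PadicAlgCl p) - (τ : PadicAlgCl p) * L ((α : ℚ) : PadicAlgCl p)‖ ≤ δ := by
    have e1 : L ((β : ℚ) : PadicAlgCl p) - (τ : PadicAlgCl p) * L ((α : ℚ) : PadicAlgCl p) =
        ∑ q, (s q : PadicAlgCl p) * (L ((b q : ℚ) : PadicAlgCl p) -
          (τ : PadicAlgCl p) * L ((a q : ℚ) : PadicAlgCl p)) := by
      rw [hLα, hLβ, Finset.mul_sum, ← Finset.sum_sub_distrib]
      exact Finset.sum_congr rfl fun q _ => by ring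
    rw [e1]
    apply IsUltrametricDist.norm_sum_le_of_forall_le_of_nonneg hδ0
    intro q _
    rw [norm_mul]
    calc ‖(s q : PadicAlgCl p)‖ * _ ≤ 1 * _ :=
          mul_le_mul_of_nonneg_right (IsUltrametricDist.norm_intCast_le_one _ _) (norm_nonneg _)
      _ ≤ δ := by rw [one_mul]; exact hδ q
  have hδK : δ * K < 1 := by
    calc δ * K ≤ δ * K * K2 := le_mul_of_one_le_right (by positivity) hK21
      _ = δ * (K * K2) := by ring
      _ < 1 := hsmall
  -- the relation between the products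
  have hrelR : (m0 : ℝ) * Real.log α + m1 * Real.log β = 0 := by
    have h1 := congrArg (fun z : ℚ => Real.log z) hrel
    push_cast at h1
    have hαR : (0 : ℝ) < α := by exact_mod_cast hαp
    have hβR : (0 : ℝ) < β := by exact_mod_cast hβp
    rw [Real.log_mul (by positivity) (by positivity), Real.log_zpow, Real.log_zpow,
      Real.log_one] at h1
    exact h1
  obtain ⟨t1, t2, ht, ht1, ht2, htrel⟩ := small_rel hK1 hαp hβp hαH hβH hm hrelR
  rw [hlogK] at ht1 ht2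
  have htrelq : α ^ t1 * β ^ t2 = 1 := by
    apply eq_one_of_log (by positivity)
    have hαR : (0 : ℝ) < α := by exact_mod_cast hαp
    have hβR : (0 : ℝ) < β := by exact_mod_cast hβp
    push_cast
    rw [Real.log_mul (by positivity) (by positivity), Real.log_zpow, Real.log_zpow]
    exact htrel
  have hαne : ((α : ℚ) : PadicAlgCl p) ≠ 0 := by exact_mod_cast hαp.ne'
  have hβne : ((β : ℚ) : PadicAlgCl p) ≠ 0 := by exact_mod_cast hβp.ne'
  have htL : (t1 : PadicAlgCl p) * L ((α : ℚ) : PadicAlgCl p) +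
      (t2 : PadicAlgCl p) * L ((β : ℚ) : PadicAlgCl p) = 0 := by
    have h1 := congrArg (fun z : ℚ => L ((z : ℚ) : PadicAlgCl p)) htrelq
    push_cast at h1
    rw [hL.mul _ _ (zpow_ne_zero _ hαne) (zpow_ne_zero _ hβne), hL.zpow hαne, hL.zpow hβne,
      hL.one] at h1
    exact h1
  by_cases hα1 : α = 1
  · -- then the logarithm of `β` is too small
    have hLα0 : L ((α : ℚ) : PadicAlgCl p) = 0 := by rw [hα1]; push_cast; exact hL.one
    have hβ1 : β ≠ 1 := by
      intro h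
      have hLβ0 : L ((β : ℚ) : PadicAlgCl p) = 0 := by rw [h]; push_cast; exact hL.one
      exact hs0 (hcol s (by rw [← hLα]; exact hLα0) (by rw [← hLβ]; exact hLβ0))
    have h1 := log_lower hL hβ1 hB1 hAK1 hBK1 hβAB hnβ
    rw [hLα0, mul_zero, sub_zero] at hdiff
    have h2 : K⁻¹ ≤ δ := h1.trans hdiff
    have h3 : 1 ≤ δ * K := by
      rw [inv_le_iff_one_le_mul₀ (by linarith)] at h2
      exact h2
    linarith
  · have hlowα := log_lower hL hα1 hB0 hAK hBK hαAB hnα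
    -- the number `t1 + τ t2` is small
    have hE : ‖(t1 : PadicAlgCl p) + (τ : PadicAlgCl p) * t2‖ ≤ δ * K := by
      have e1 : ((t1 : PadicAlgCl p) + (τ : PadicAlgCl p) * t2) * L ((α : ℚ) : PadicAlgCl p) =
          -((t2 : PadicAlgCl p) * (L ((β : ℚ) : PadicAlgCl p) -
            (τ : PadicAlgCl p) * L ((α : ℚ) : PadicAlgCl p))) := by
        linear_combination htL
      have h1 : ‖(t1 : PadicAlgCl p) + (τ : PadicAlgCl p) * t2‖ * ‖L ((α : ℚ) : PadicAlgCl p)‖ ≤ δ := by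
        rw [← norm_mul, e1, norm_neg, norm_mul]
        calc ‖(t2 : PadicAlgCl p)‖ * _ ≤ 1 * _ :=
              mul_le_mul_of_nonneg_right (IsUltrametricDist.norm_intCast_le_one _ _) (norm_nonneg _)
          _ ≤ δ := by rw [one_mul]; exact hdiff
      have h2 : ‖(t1 : PadicAlgCl p) + (τ : PadicAlgCl p) * t2‖ * K⁻¹ ≤ δ :=
        (mul_le_mul_of_nonneg_left hlowα (norm_nonneg _)).trans h1
      calc ‖(t1 : PadicAlgCl p) + (τ : PadicAlgCl p) * t2‖ =
            ‖(t1 : PadicAlgCl p) + (τ : PadicAlgCl p) * t2‖ * K⁻¹ * K := by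
            rw [mul_assoc, inv_mul_cancel₀ (by linarith), mul_one]
        _ ≤ δ * K := mul_le_mul_of_nonneg_right h2 (by linarith)
    have hδδK : δ ≤ δ * K := le_mul_of_one_le_right hδ0 (by linarith)
    have hall : ∀ q, (t1 : PadicAlgCl p) * L ((a q : ℚ) : PadicAlgCl p) +
        (t2 : PadicAlgCl p) * L ((b q : ℚ) : PadicAlgCl p) = 0 := by
      intro q
      have haq : ((a q : ℚ) : PadicAlgCl p) ≠ 0 := by exact_mod_cast (hap q).ne'
      have hbq : ((b q : ℚ) : PadicAlgCl p) ≠ 0 := by exact_mod_cast (hbp q).ne'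
      have hnorm : ‖(t1 : PadicAlgCl p) * L ((a q : ℚ) : PadicAlgCl p) +
          (t2 : PadicAlgCl p) * L ((b q : ℚ) : PadicAlgCl p)‖ ≤ δ * K := by
        have e1 : (t1 : PadicAlgCl p) * L ((a q : ℚ) : PadicAlgCl p) +
            (t2 : PadicAlgCl p) * L ((b q : ℚ) : PadicAlgCl p) =
            ((t1 : PadicAlgCl p) + (τ : PadicAlgCl p) * t2) * L ((a q : ℚ) : PadicAlgCl p) +
            (t2 : PadicAlgCl p) * (L ((b q : ℚ) : PadicAlgCl p) -
              (τ : PadicAlgCl p) * L ((a q : ℚ) : PadicAlgCl p)) := by ring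
        rw [e1]
        refine (IsUltrametricDist.norm_add_le_max _ _).trans (max_le ?_ ?_)
        · rw [norm_mul]
          calc ‖(t1 : PadicAlgCl p) + (τ : PadicAlgCl p) * t2‖ * ‖L ((a q : ℚ) : PadicAlgCl p)‖ ≤
                ‖(t1 : PadicAlgCl p) + (τ : PadicAlgCl p) * t2‖ * 1 := by
                apply mul_le_mul_of_nonneg_left _ (norm_nonneg _)
                rw [norm_log hL (hna q)]
                exact near_le_one (hna q)
            _ ≤ δ * K := by rw [mul_one]; exact hE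
        · rw [norm_mul]
          calc ‖(t2 : PadicAlgCl p)‖ * _ ≤ 1 * _ :=
                mul_le_mul_of_nonneg_right (IsUltrametricDist.norm_intCast_le_one _ _)
                  (norm_nonneg _)
            _ ≤ δ := by rw [one_mul]; exact hδ q
            _ ≤ δ * K := hδδK
      -- the product of powers
      let c : Fin 2 → ℚ := ![a q, b q]
      let t : Fin 2 → ℤ := ![t1, t2]
      have hcp : ∀ i, 0 < c i := by
        intro i; fin_cases i
        · exact hap q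
        · exact hbp q
      have hcH : ∀ i, HtLe H (c i) := by
        intro i; fin_cases i
        · exact haH q
        · exact hbH q
      obtain ⟨A2, B2, hA2, hB2, hAK2, hBK2, hxAB⟩ :=
        rep_prod Finset.univ c hcp t (H := H) (by linarith) hcH (4 * l * N * Real.log H) (by
          rw [Fin.sum_univ_two]
          change |(t1 : ℝ)| + |(t2 : ℝ)| ≤ _
          linarith)
      rw [← hK2] at hAK2 hBK2
      rw [Fin.prod_univ_two] at hxAB
      change a q ^ t1 * b q ^ t2 = A2 / B2 at hxAB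
      have hLx : L ((a q ^ t1 * b q ^ t2 : ℚ) : PadicAlgCl p) =
          (t1 : PadicAlgCl p) * L ((a q : ℚ) : PadicAlgCl p) +
          (t2 : PadicAlgCl p) * L ((b q : ℚ) : PadicAlgCl p) := by
        push_cast
        rw [hL.mul _ _ (zpow_ne_zero _ haq) (zpow_ne_zero _ hbq), hL.zpow haq, hL.zpow hbq]
      have hnx : ‖((a q ^ t1 * b q ^ t2 : ℚ) : PadicAlgCl p) - 1‖ * (p : ℝ) ^ 3 ≤ 1 := by
        push_cast
        exact near_mul (near_zpow (hna q) _) (near_zpow (hnb q) _)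
      rw [← hLx]
      by_cases hx1 : a q ^ t1 * b q ^ t2 = 1
      · rw [hx1]; push_cast; exact hL.one
      · exfalso
        have h1 := log_lower hL hx1 hB2 hAK2 hBK2 hxAB hnx
        rw [hLx] at h1
        have h2 : K2⁻¹ ≤ δ * K := h1.trans hnorm
        rw [inv_le_iff_one_le_mul₀ (by linarith)] at h2
        have h3 : δ * K * K2 = δ * (K * K2) := by ring
        linarith
    obtain ⟨e1, e2⟩ := hrow t1 t2 hall
    rcases ht with h | h
    · exact h e1
    · exact h e2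

end Pool.Agent.L0h53.PS
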