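import Mathlib

set_option autoImplicit false

/-! The choice of the parameters `U` and `P = 2 ^ e - 1`. -/

namespace Pool.Agent.L0h53.PS

theorem par {p : ℕ} (hp : 2 ≤ p) {l n σ a : ℕ} (hn : 200 ≤ n) (ha : 1 ≤ a) {H : ℝ} (hH : 3 ≤ H)
    (hnH : 800 * l * Real.log H ≤ (n : ℝ) ^ a) (hpn : (p : ℝ) ≤ (n : ℝ) ^ a) :
    ∃ U e : ℕ, ((n : ℝ) ^ (σ + a)) ^ 2 / 32 ≤ U * Real.log p ∧
      U * Real.log p ≤ ((n : ℝ) ^ (σ + a)) ^ 2 / 16 ∧
      (p ^ U) ^ U < (2 ^ e) ^ ((n ^ (σ + a) + 1) * (n ^ (σ + a) + 1)) ∧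
      (((n ^ (σ + a) + 1) * (n ^ (σ + a) + 1) : ℕ) : ℝ) * ((2 ^ e - 1 : ℕ) : ℝ) *
        H ^ (4 * l * n ^ (σ + a) * n ^ σ) < (p : ℝ) ^ U := by
  have hp0 : (0 : ℝ) < p := by
    have : 0 < p := by omega
    exact_mod_cast this
  have hn1 : (1 : ℝ) ≤ n := by
    have : 1 ≤ n := by omega
    exact_mod_cast this
  obtain ⟨lp, hlp⟩ : ∃ lp, lp = Real.log p := ⟨_, rfl⟩
  have hlp2 : 0.6931 < lp := by
    have h1 := Real.log_two_gt_d9
    have h2 : Real.log 2 ≤ lp := by
      rw [hlp]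
      exact Real.log_le_log (by norm_num) (by exact_mod_cast hp)
    linarith
  have hlog2 : Real.log 2 < 0.6932 := by
    have := Real.log_two_lt_d9
    linarith
  have hlog2' : 0.6931 < Real.log 2 := by
    have := Real.log_two_gt_d9
    linarith
  have hlpp : lp ≤ p := by
    rw [hlp]
    have := Real.log_le_sub_one_of_pos hp0
    linarith
  obtain ⟨N, hN⟩ : ∃ N : ℝ, N = (n : ℝ) ^ σ := ⟨_, rfl⟩
  obtain ⟨M, hM⟩ : ∃ M : ℝ, M = (n : ℝ) ^ (σ + a) := ⟨_, rfl⟩
  have hN1 : 1 ≤ N := by rw [hN]; exact one_le_pow₀ hn1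
  have hMN : M = N * (n : ℝ) ^ a := by rw [hM, hN, pow_add]
  have hna : (200 : ℝ) ≤ (n : ℝ) ^ a := by
    calc (200 : ℝ) ≤ n := by exact_mod_cast hn
      _ = (n : ℝ) ^ 1 := (pow_one _).symm
      _ ≤ (n : ℝ) ^ a := pow_le_pow_right₀ hn1 ha
  have hM200 : 200 ≤ M := by rw [hMN]; nlinarith
  have hpM : (p : ℝ) ≤ M := by rw [hMN]; nlinarith
  obtain ⟨X, hX⟩ : ∃ X : ℝ, X = M ^ 2 := ⟨_, rfl⟩
  have hXM : 200 * M ≤ X := by rw [hX]; nlinarith
  have hX0 : 0 < X := by linarith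
  rw [← hM, ← hX, ← hlp]
  have hlogH : 0 ≤ Real.log H := Real.log_nonneg (by linarith)
  have hlH : 800 * l * Real.log H * N ≤ M := by
    rw [hMN]
    nlinarith
  obtain ⟨U, hU⟩ : ∃ U : ℕ, U = ⌈X / (32 * lp)⌉₊ := ⟨_, rfl⟩
  obtain ⟨e, he⟩ : ∃ e : ℕ, e = ⌈X / 100⌉₊ := ⟨_, rfl⟩
  have hU1 : X / 32 ≤ U * lp := by
    have h1 := Nat.le_ceil (X / (32 * lp))
    rw [← hU, div_le_iff₀ (by positivity)] at h1
    linarith
  have hU2 : U * lp ≤ X / 16 := by
    have h1 := Nat.ceil_lt_add_one (show 0 ≤ X / (32 * lp) by positivity)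
    rw [← hU] at h1
    have h2 : (U : ℝ) * lp < (X / (32 * lp) + 1) * lp :=
      mul_lt_mul_of_pos_right h1 (by linarith)
    have h3 : (X / (32 * lp) + 1) * lp = X / 32 + lp := by
      field_simp
    rw [h3] at h2
    linarith
  have he1 : X / 100 ≤ e := by rw [he]; exact Nat.le_ceil _
  have he2 : (e : ℝ) ≤ X / 100 + 1 := by
    rw [he]
    exact (Nat.ceil_lt_add_one (by positivity)).le
  refine ⟨U, e, hU1, hU2, ?_, ?_⟩
  · -- the first inequality
    have h1 : ((((p ^ U) ^ U : ℕ)) : ℝ) < (((2 ^ e) ^ ((n ^ (σ + a) + 1) * (n ^ (σ + a) + 1)) : ℕ) : ℝ) := by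
      push_cast
      have e1 : ((p : ℝ) ^ U) ^ U = Real.exp (U * (U * lp)) := by
        rw [hlp, Real.exp_nat_mul, Real.exp_nat_mul, Real.exp_log hp0]
      have e2 : ((2 : ℝ) ^ e) ^ ((n ^ (σ + a) + 1) * (n ^ (σ + a) + 1)) =
          Real.exp ((((n ^ (σ + a) + 1) * (n ^ (σ + a) + 1) : ℕ) : ℝ) * (e * Real.log 2)) := by
        rw [Real.exp_nat_mul, Real.exp_nat_mul, Real.exp_log (by norm_num)]
      rw [e1, e2]
      apply Real.exp_lt_exp.mpr
      push_cast
      rw [← hM]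
      have h2 : (U : ℝ) ≤ X / 11 := by
        have h3 : (U : ℝ) * 0.6931 ≤ X / 16 := by
          refine le_trans ?_ hU2
          exact mul_le_mul_of_nonneg_left hlp2.le (Nat.cast_nonneg _)
        linarith
      have h4 : (U : ℝ) * (U * lp) ≤ X / 11 * (X / 16) :=
        mul_le_mul h2 hU2 (by positivity) (by positivity)
      have h5 : X / 100 * 0.6931 ≤ e * Real.log 2 :=
        mul_le_mul he1 hlog2'.le (by norm_num) (by positivity)
      have h6 : X ≤ (M + 1) * (M + 1) := by rw [hX]; nlinarith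
      have h7 : X * (X / 100 * 0.6931) ≤ (M + 1) * (M + 1) * (e * Real.log 2) :=
        mul_le_mul h6 h5 (by positivity) (by positivity)
      nlinarith
    exact_mod_cast h1
  · have e1 : (p : ℝ) ^ U = Real.exp (U * lp) := by
      rw [hlp, Real.exp_nat_mul, Real.exp_log hp0]
    have h1 : (((n ^ (σ + a) + 1) * (n ^ (σ + a) + 1) : ℕ) : ℝ) ≤ Real.exp (M + M) := by
      push_cast
      rw [← hM, Real.exp_add]
      have h2 := Real.add_one_le_exp M
      exact mul_le_mul h2 h2 (by linarith) (Real.exp_pos _).le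
    have h2 : ((2 ^ e - 1 : ℕ) : ℝ) ≤ Real.exp (e * Real.log 2) := by
      rw [Real.exp_nat_mul, Real.exp_log (by norm_num)]
      have : 2 ^ e - 1 ≤ 2 ^ e := Nat.sub_le _ _
      exact_mod_cast this
    have h3 : H ^ (4 * l * n ^ (σ + a) * n ^ σ) = Real.exp (4 * l * M * N * Real.log H) := by
      have : (4 * l * M * N : ℝ) = ((4 * l * n ^ (σ + a) * n ^ σ : ℕ) : ℝ) := by
        rw [hM, hN]; push_cast; ring
      rw [this, Real.exp_nat_mul, Real.exp_log (by linarith)]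
    rw [e1, h3]
    calc (((n ^ (σ + a) + 1) * (n ^ (σ + a) + 1) : ℕ) : ℝ) * ((2 ^ e - 1 : ℕ) : ℝ) *
          Real.exp (4 * l * M * N * Real.log H) ≤
          Real.exp (M + M) * Real.exp (e * Real.log 2) * Real.exp (4 * l * M * N * Real.log H) := by
          gcongr
      _ = Real.exp (M + M + e * Real.log 2 + 4 * l * M * N * Real.log H) := by
          rw [← Real.exp_add, ← Real.exp_add]
      _ < Real.exp (U * lp) := by
          apply Real.exp_lt_exp.mpr
          have h4 : 4 * l * M * N * Real.log H ≤ X / 200 := by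
            calc 4 * l * M * N * Real.log H = M * (800 * l * Real.log H * N) / 200 := by ring
              _ ≤ M * M / 200 := by
                  apply div_le_div_of_nonneg_right _ (by norm_num)
                  exact mul_le_mul_of_nonneg_left hlH (by linarith)
              _ = X / 200 := by rw [hX]; ring
          have h5 : (e : ℝ) * Real.log 2 ≤ (X / 100 + 1) * 0.6932 :=
            mul_le_mul he2 hlog2.le (by linarith) (by linarith)
          linarith

end Pool.Agent.L0h53.PS
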