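import Mathlib
import Pool.Agent.L0h53.PS.Par
import Pool.Agent.L0h53.PS.Core
import Pool.Agent.L0h53.PS.Degen

set_option autoImplicit false

/-! The uniform lower bound for the distance of two rows of logarithms. -/

namespace Pool.Agent.L0h53.PS

open Finset Pool.Agent.L0h53.NP Pool.Agent.W245.PB

variable {p : ℕ} [hp : Fact p.Prime] {L : PadicAlgCl p → PadicAlgCl p}

/-- **The core.** -/
theorem core (hL : IsIwasawaLog p L) {l σ a n : ℕ} (hl : 1 ≤ l) (ha : 1 ≤ a)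
    (hpar : 2 * σ + 2 * a + 1 ≤ l * σ) (hn : 200 ≤ n) {H : ℝ} (hH : 3 ≤ H)
    (hnH : 800 * l * Real.log H ≤ (n : ℝ) ^ a) (hpn : (p : ℝ) ≤ (n : ℝ) ^ a) :
    ∃ U : ℕ, U * Real.log p ≤ ((n : ℝ) ^ (σ + a)) ^ 2 / 16 ∧
    ∀ x y : Fin l → ℚ, (∀ q, 0 < x q) → (∀ q, 0 < y q) → (∀ q, HtLe H (x q)) →
    (∀ q, HtLe H (y q)) →
    (∀ q, ‖((x q : ℚ) : PadicAlgCl p) - 1‖ * (p : ℝ) ^ 3 ≤ 1) →
    (∀ q, ‖((y q : ℚ) : PadicAlgCl p) - 1‖ * (p : ℝ) ^ 3 ≤ 1) →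
    (∀ t0 t1 : ℤ, (∀ q, (t0 : PadicAlgCl p) * L ((x q : ℚ) : PadicAlgCl p) +
      (t1 : PadicAlgCl p) * L ((y q : ℚ) : PadicAlgCl p) = 0) → t0 = 0 ∧ t1 = 0) →
    (∀ s : Fin l → ℤ, ∑ q, (s q : PadicAlgCl p) * L ((x q : ℚ) : PadicAlgCl p) = 0 →
      ∑ q, (s q : PadicAlgCl p) * L ((y q : ℚ) : PadicAlgCl p) = 0 → s = 0) →
    ∀ τ : ℕ, ∃ q, (p : ℝ) ^ (-(U : ℤ)) <
      ‖L ((y q : ℚ) : PadicAlgCl p) - (τ : PadicAlgCl p) * L ((x q : ℚ) : PadicAlgCl p)‖ := by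
  obtain ⟨U, e, hU1, hU2, hpig, hsize⟩ := par (p := p) hp.out.two_le (l := l) (σ := σ) hn ha hH hnH hpn
  refine ⟨U, hU2, ?_⟩
  intro x y hxp hyp hxH hyH hnx hny hrow hcol τ
  by_contra hcon
  push Not at hcon
  have hp0 : (0 : ℝ) < p := by exact_mod_cast hp.out.pos
  have hp1 : (1 : ℝ) < p := by exact_mod_cast hp.out.one_lt
  have hn0 : 0 < n := by omega
  -- closeness of the numbers
  have hclose : ∀ q, ‖((y q : ℚ) : ℚ_[p]) - ((x q : ℚ) : ℚ_[p]) ^ τ‖ ≤ (p : ℝ) ^ (-(U : ℤ)) := by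
    intro q
    have hxne : ((x q : ℚ) : PadicAlgCl p) ≠ 0 := by exact_mod_cast (hxp q).ne'
    have hyne : ((y q : ℚ) : PadicAlgCl p) ≠ 0 := by exact_mod_cast (hyp q).ne'
    have hpow := near_pow (hnx q) τ
    have hquot := near_mul (hny q) (near_inv hpow)
    have h1 := norm_log hL hquot
    rw [hL.mul _ _ hyne (inv_ne_zero (pow_ne_zero _ hxne)), hL.inv (pow_ne_zero _ hxne),
      hL.pow hxne, ← sub_eq_add_neg] at h1
    have h2 : ((y q : ℚ) : PadicAlgCl p) - ((x q : ℚ) : PadicAlgCl p) ^ τ =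
        ((x q : ℚ) : PadicAlgCl p) ^ τ *
          (((y q : ℚ) : PadicAlgCl p) * (((x q : ℚ) : PadicAlgCl p) ^ τ)⁻¹ - 1) := by
      field_simp
    have h3 : ‖((y q : ℚ) : ℚ_[p]) - ((x q : ℚ) : ℚ_[p]) ^ τ‖ =
        ‖((y q : ℚ) : PadicAlgCl p) - ((x q : ℚ) : PadicAlgCl p) ^ τ‖ := by
      have := norm_ratCast_alg (p := p) (y q - x q ^ τ)
      push_cast at this
      exact this.symm
    rw [h3, h2, norm_mul, near_norm hpow, one_mul, ← h1]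
    exact hcon q
  have hlt1 : ∀ q, ‖((x q : ℚ) : ℚ_[p]) - 1‖ < 1 := by
    intro q
    have h1 := norm_ratCast_alg (p := p) (x q - 1)
    push_cast at h1
    rw [← h1]
    exact near_lt_one (hnx q)
  -- the auxiliary polynomial
  obtain ⟨c, hc0, hcP, hcd⟩ := pigeon (J := Fin (n ^ (σ + a) + 1) × Fin (n ^ (σ + a) + 1))
    (p ^ U) U (2 ^ e - 1) (Nat.one_le_pow _ _ hp.out.pos)
    (fun j ν => ((Nat.choose ((j.1 : ℕ) + (j.2 : ℕ) * τ) (ν : ℕ) : ℕ) : ℤ)) (by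
      rw [Fintype.card_prod, Fintype.card_fin, Nat.sub_add_cancel Nat.one_le_two_pow]
      exact hpig)
  have hvan := vanish (p := p) (l := l) (M := n ^ (σ + a)) (N := n ^ σ) (U := U) (τ := τ)
    (P := 2 ^ e - 1) x y (H := H) (by linarith) hxH hyH hlt1 hclose c hcP
    (fun j => (j.1 : ℕ)) (fun j => (j.2 : ℕ)) (fun j => Nat.lt_succ_iff.mp j.1.2)
    (fun j => Nat.lt_succ_iff.mp j.2.2) (fun ν hν => hcd ⟨ν, hν⟩) (by
      rw [Fintype.card_prod, Fintype.card_fin]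
      exact hsize)
  obtain ⟨s, hs0, hsN, m0, m1, hm, hrel⟩ := obstruct (l := l) (n := n) (σ := σ) (a := a) (by omega)
    hpar x y (fun q => (hxp q).ne') (fun q => (hyp q).ne') c hc0 hvan
  refine degenerate hL hl (N := n ^ σ) (Nat.one_le_pow _ _ hn0) hH x y hxp hyp hxH hyH hnx hny hrow
    hcol τ (δ := (p : ℝ) ^ (-(U : ℤ))) hcon ?_ s hs0 (fun q => by push_cast; exact hsN q) m0 m1 hm hrel
  -- smallness
  have hlog : 1 ≤ Real.log H := by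
    rw [Real.le_log_iff_exp_le (by linarith)]
    have := Real.exp_one_lt_d9
    linarith
  obtain ⟨Λ, hΛ⟩ : ∃ Λ, Λ = Real.log H := ⟨_, rfl⟩
  rw [← hΛ] at hlog hnH
  have hlR : (1 : ℝ) ≤ l := by exact_mod_cast hl
  have hn1 : (1 : ℝ) ≤ n := by exact_mod_cast hn0
  obtain ⟨N, hN⟩ : ∃ N : ℝ, N = (n : ℝ) ^ σ := ⟨_, rfl⟩
  have hN1 : 1 ≤ N := by rw [hN]; exact one_le_pow₀ hn1
  have e1 : (p : ℝ) ^ (-(U : ℤ)) = Real.exp (-(U * Real.log p)) := by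
    rw [zpow_neg, zpow_natCast, Real.exp_neg, Real.exp_nat_mul, Real.exp_log hp0]
  rw [e1, ← Real.exp_add, Real.exp_lt_one_iff]
  push_cast
  rw [← hN, ← hΛ]
  have h1 : 800 * l * Λ * N ≤ (n : ℝ) ^ (σ + a) := by
    rw [pow_add, ← hN]
    nlinarith
  obtain ⟨Y, hY⟩ : ∃ Y : ℝ, Y = l * N * Λ := ⟨_, rfl⟩
  have hY1 : 1 ≤ Y := by
    rw [hY]
    nlinarith [mul_le_mul hlR hN1 (by norm_num) (by linarith)]
  have hYΛ : Λ ≤ Y := by
    rw [hY]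
    nlinarith [mul_le_mul hlR hN1 (by norm_num) (by linarith)]
  have h2 : (800 * Y) ^ 2 ≤ ((n : ℝ) ^ (σ + a)) ^ 2 := by
    apply pow_le_pow_left₀ (by positivity)
    rw [hY]
    linarith
  have h3 : l * N * Λ + 4 * l * N * Λ * Λ ≤ 5 * Y ^ 2 := by
    have : l * N * Λ + 4 * l * N * Λ * Λ = Y + 4 * (Y * Λ) := by rw [hY]; ring
    rw [this]
    nlinarith
  nlinarith

/-- logarithms of rational numbers close to `1` lie in `ℚ_p` -/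
theorem log_mem (hL : IsIwasawaLog p L) (x : ℚ)
    (hx : ‖((x : ℚ) : PadicAlgCl p) - 1‖ * (p : ℝ) ^ 3 ≤ 1) :
    ∃ y : ℚ_[p], algebraMap ℚ_[p] (PadicAlgCl p) y = L ((x : ℚ) : PadicAlgCl p) := by
  have hiso : Isometry (algebraMap ℚ_[p] (PadicAlgCl p)) :=
    AddMonoidHomClass.isometry_of_norm _ (PadicAlgCl.norm_extends p)
  have hclosed : IsClosed (Set.range (algebraMap ℚ_[p] (PadicAlgCl p))) :=
    hiso.isClosedEmbedding.isClosed_range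
  have h1 := hL.ser (((x : ℚ) : PadicAlgCl p) - 1) (near_lt_one hx)
  rw [add_sub_cancel] at h1
  have h2 := hclosed.mem_of_tendsto h1 (Filter.Eventually.of_forall fun s => by
    refine ⟨∑ n ∈ s, (-1 : ℚ_[p]) ^ n * ((x : ℚ_[p]) - 1) ^ (n + 1) / ((n : ℚ_[p]) + 1), ?_⟩
    simp [map_sum])
  exact h2

/-- a pivot gives a natural number which approximates the ratio -/
theorem pivot {l : ℕ} (S T : Fin l → ℚ_[p]) {ε κ : ℝ} (hκ : 0 < κ) (j0 : Fin l)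
    (hS : ∀ j, ‖S j‖ ≤ ‖S j0‖) (hT : ‖T j0‖ ≤ ‖S j0‖) (hS1 : ‖S j0‖ ≤ 1) (hlow : κ ≤ ‖S j0‖)
    (hm : ∀ j k, ‖S j * T k - S k * T j‖ ≤ ε) (U : ℕ) (hε : ε ≤ κ * (p : ℝ) ^ (-(U : ℤ))) :
    ∃ τ : ℕ, ∀ j, ‖T j - (τ : ℚ_[p]) * S j‖ ≤ (p : ℝ) ^ (-(U : ℤ)) := by
  have hp0 : (0 : ℝ) < p := by exact_mod_cast hp.out.pos
  have hpos : 0 < ‖S j0‖ := lt_of_lt_of_le hκ hlow
  have hne : S j0 ≠ 0 := norm_pos_iff.mp hpos
  have ht : ‖T j0 / S j0‖ ≤ 1 := by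
    rw [norm_div, div_le_one hpos]
    exact hT
  let t : ℤ_[p] := ⟨T j0 / S j0, ht⟩
  have h1 := PadicInt.appr_spec U t
  rw [← PadicInt.norm_le_pow_iff_mem_span_pow] at h1
  refine ⟨t.appr U, fun j => ?_⟩
  have h2 : ‖T j0 / S j0 - ((t.appr U : ℕ) : ℚ_[p])‖ ≤ (p : ℝ) ^ (-(U : ℤ)) := by
    rw [PadicInt.norm_def] at h1
    push_cast at h1
    exact h1
  have e1 : T j - ((t.appr U : ℕ) : ℚ_[p]) * S j =
      (S j0 * T j - S j * T j0) / S j0 + S j * (T j0 / S j0 - ((t.appr U : ℕ) : ℚ_[p])) := by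
    field_simp
    ring
  rw [e1]
  refine (IsUltrametricDist.norm_add_le_max _ _).trans (max_le ?_ ?_)
  · rw [norm_div, div_le_iff₀ hpos]
    refine (hm j0 j).trans (hε.trans ?_)
    rw [mul_comm]
    exact mul_le_mul_of_nonneg_left hlow (by positivity)
  · rw [norm_mul]
    calc ‖S j‖ * ‖T j0 / S j0 - ((t.appr U : ℕ) : ℚ_[p])‖ ≤ 1 * _ :=
          mul_le_mul_of_nonneg_right ((hS j).trans hS1) (norm_nonneg _)
      _ ≤ _ := by rw [one_mul]; exact h2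

end Pool.Agent.L0h53.PS
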