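import Mathlib
import Pool.Agent.L0h53.PS.Main

set_option autoImplicit false

/-! A lower bound for one of the minors. -/

namespace Pool.Agent.L0h53.PS

open Finset Pool.Agent.L0h53.NP Pool.Agent.W245.PB

variable {p : ℕ} [hp : Fact p.Prime] {L : PadicAlgCl p → PadicAlgCl p}

theorem log_lower' (hL : IsIwasawaLog p L) {x : ℚ} (hx0 : 0 < x) (hx1 : x ≠ 1) {H : ℝ}
    (hxH : HtLe H x) (hnear : ‖((x : ℚ) : PadicAlgCl p) - 1‖ * (p : ℝ) ^ 3 ≤ 1) :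
    H⁻¹ ≤ ‖L ((x : ℚ) : PadicAlgCl p)‖ := by
  have hnum : 0 < x.num := Rat.num_pos.mpr hx0
  refine log_lower hL hx1 (A := x.num.natAbs) (B := x.den) x.pos ?_ hxH.2 ?_ hnear
  · rw [Nat.cast_natAbs]; push_cast; exact hxH.1
  · have e1 : (((x.num.natAbs : ℕ) : ℚ)) = (x.num : ℚ) := by
      have : ((x.num.natAbs : ℕ) : ℤ) = x.num := by omega
      calc ((x.num.natAbs : ℕ) : ℚ) = ((x.num.natAbs : ℤ) : ℚ) := by rw [Int.cast_natCast]
        _ = (x.num : ℚ) := by rw [this]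
    rw [e1]
    exact (Rat.num_div_den x).symm

/-- the case in which the pivot is in the first row -/
theorem minor_aux (hL : IsIwasawaLog p L) {l : ℕ} {H : ℝ} (hH : 3 ≤ H) (U : ℕ)
    (x y : Fin l → ℚ) (hxp : ∀ q, 0 < x q) (hxH : ∀ q, HtLe H (x q))
    (hnx : ∀ q, ‖((x q : ℚ) : PadicAlgCl p) - 1‖ * (p : ℝ) ^ 3 ≤ 1)
    (hny : ∀ q, ‖((y q : ℚ) : PadicAlgCl p) - 1‖ * (p : ℝ) ^ 3 ≤ 1)
    (hcore : ∀ τ : ℕ, ∃ q, (p : ℝ) ^ (-(U : ℤ)) <
      ‖L ((y q : ℚ) : PadicAlgCl p) - (τ : PadicAlgCl p) * L ((x q : ℚ) : PadicAlgCl p)‖)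
    (q0 : Fin l) (hne : L ((x q0 : ℚ) : PadicAlgCl p) ≠ 0)
    (hmx : ∀ q, ‖L ((x q : ℚ) : PadicAlgCl p)‖ ≤ ‖L ((x q0 : ℚ) : PadicAlgCl p)‖)
    (hmy : ∀ q, ‖L ((y q : ℚ) : PadicAlgCl p)‖ ≤ ‖L ((x q0 : ℚ) : PadicAlgCl p)‖) :
    ∃ j k, H⁻¹ * (p : ℝ) ^ (-(U : ℤ)) <
      ‖L ((x j : ℚ) : PadicAlgCl p) * L ((y k : ℚ) : PadicAlgCl p) -
        L ((x k : ℚ) : PadicAlgCl p) * L ((y j : ℚ) : PadicAlgCl p)‖ := by
  by_contra hcon
  push Not at hcon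
  choose S hS using fun q => log_mem hL (x q) (hnx q)
  choose T hT using fun q => log_mem hL (y q) (hny q)
  have hnS : ∀ q, ‖S q‖ = ‖L ((x q : ℚ) : PadicAlgCl p)‖ := fun q => by
    rw [← hS]; exact (PadicAlgCl.norm_extends p (S q)).symm
  have hnT : ∀ q, ‖T q‖ = ‖L ((y q : ℚ) : PadicAlgCl p)‖ := fun q => by
    rw [← hT]; exact (PadicAlgCl.norm_extends p (T q)).symm
  have hx1 : x q0 ≠ 1 := by
    intro h
    apply hne
    rw [h]; push_cast; exact hL.one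
  obtain ⟨τ, hτ⟩ := pivot S T (ε := H⁻¹ * (p : ℝ) ^ (-(U : ℤ))) (κ := H⁻¹) (by positivity) q0
    (fun j => by rw [hnS, hnS]; exact hmx j) (by rw [hnS, hnT]; exact hmy q0)
    (by rw [hnS, norm_log hL (hnx q0)]; exact near_le_one (hnx q0))
    (by rw [hnS]; exact log_lower' hL (hxp q0) hx1 (hxH q0) (hnx q0))
    (fun j k => by
      have h1 := hcon j k
      rw [← hS, ← hS, ← hT, ← hT, ← map_mul, ← map_mul, ← map_sub] at h1
      rw [← PadicAlgCl.norm_extends p]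
      exact h1)
    U le_rfl
  obtain ⟨q, hq⟩ := hcore τ
  have h1 := hτ q
  have h2 : ‖L ((y q : ℚ) : PadicAlgCl p) - (τ : PadicAlgCl p) * L ((x q : ℚ) : PadicAlgCl p)‖ =
      ‖T q - (τ : ℚ_[p]) * S q‖ := by
    rw [← PadicAlgCl.norm_extends p (T q - (τ : ℚ_[p]) * S q), ← hS, ← hT]
    congr 1
    rw [map_sub, map_mul, map_natCast]
  rw [h2] at hq
  exact absurd (hq.trans_le h1) (lt_irrefl _)

/-- **Minors of matrices of logarithms of rational numbers close to `1`.** -/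
theorem minor_near (hL : IsIwasawaLog p L) {l σ a n : ℕ} (hl : 1 ≤ l) (ha : 1 ≤ a)
    (hpar : 2 * σ + 2 * a + 1 ≤ l * σ) (hn : 200 ≤ n) {H : ℝ} (hH : 3 ≤ H)
    (hnH : 800 * l * Real.log H ≤ (n : ℝ) ^ a) (hpn : (p : ℝ) ≤ (n : ℝ) ^ a)
    (x y : Fin l → ℚ) (hxp : ∀ q, 0 < x q) (hyp : ∀ q, 0 < y q) (hxH : ∀ q, HtLe H (x q))
    (hyH : ∀ q, HtLe H (y q))
    (hnx : ∀ q, ‖((x q : ℚ) : PadicAlgCl p) - 1‖ * (p : ℝ) ^ 3 ≤ 1)
    (hny : ∀ q, ‖((y q : ℚ) : PadicAlgCl p) - 1‖ * (p : ℝ) ^ 3 ≤ 1)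
    (hrow : ∀ t0 t1 : ℤ, (∀ q, (t0 : PadicAlgCl p) * L ((x q : ℚ) : PadicAlgCl p) +
      (t1 : PadicAlgCl p) * L ((y q : ℚ) : PadicAlgCl p) = 0) → t0 = 0 ∧ t1 = 0)
    (hcol : ∀ s : Fin l → ℤ, ∑ q, (s q : PadicAlgCl p) * L ((x q : ℚ) : PadicAlgCl p) = 0 →
      ∑ q, (s q : PadicAlgCl p) * L ((y q : ℚ) : PadicAlgCl p) = 0 → s = 0) :
    ∃ j k, Real.exp (-((n : ℝ) ^ (σ + a)) ^ 2) <
      ‖L ((x j : ℚ) : PadicAlgCl p) * L ((y k : ℚ) : PadicAlgCl p) -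
        L ((x k : ℚ) : PadicAlgCl p) * L ((y j : ℚ) : PadicAlgCl p)‖ := by
  have hp0 : (0 : ℝ) < p := by exact_mod_cast hp.out.pos
  obtain ⟨U, hU, hcore⟩ := core hL hl ha hpar hn hH hnH hpn
  have hlog : 1 ≤ Real.log H := by
    rw [Real.le_log_iff_exp_le (by linarith)]
    have := Real.exp_one_lt_d9
    linarith
  have hbound : Real.exp (-((n : ℝ) ^ (σ + a)) ^ 2) ≤ H⁻¹ * (p : ℝ) ^ (-(U : ℤ)) := by
    have e1 : (p : ℝ) ^ (-(U : ℤ)) = Real.exp (-(U * Real.log p)) := by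
      rw [zpow_neg, zpow_natCast, Real.exp_neg, Real.exp_nat_mul, Real.exp_log hp0]
    have e2 : H⁻¹ = Real.exp (-Real.log H) := by
      rw [Real.exp_neg, Real.exp_log (by linarith)]
    rw [e1, e2, ← Real.exp_add]
    apply Real.exp_le_exp.mpr
    have hlR : (1 : ℝ) ≤ l := by exact_mod_cast hl
    have hn1 : (1 : ℝ) ≤ n := by
      have : 1 ≤ n := by omega
      exact_mod_cast this
    have h1 : 800 * l * Real.log H ≤ (n : ℝ) ^ (σ + a) := by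
      refine hnH.trans ?_
      exact pow_le_pow_right₀ hn1 (by omega)
    have h2 : Real.log H ≤ l * Real.log H := by nlinarith
    have h3 : Real.log H * 800 ≤ (n : ℝ) ^ (σ + a) := by linarith
    have h4 : (1 : ℝ) ≤ (n : ℝ) ^ (σ + a) := one_le_pow₀ hn1
    nlinarith
  -- the pivot
  have : Nonempty (Fin l) := ⟨⟨0, by omega⟩⟩
  let f : Fin l ⊕ Fin l → ℝ := Sum.elim (fun q => ‖L ((x q : ℚ) : PadicAlgCl p)‖)
    (fun q => ‖L ((y q : ℚ) : PadicAlgCl p)‖)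
  obtain ⟨z, hz⟩ := Finite.exists_max f
  have hzx : ∀ q, ‖L ((x q : ℚ) : PadicAlgCl p)‖ ≤ f z := fun q => hz (Sum.inl q)
  have hzy : ∀ q, ‖L ((y q : ℚ) : PadicAlgCl p)‖ ≤ f z := fun q => hz (Sum.inr q)
  have hz0 : f z ≠ 0 := by
    intro h
    have h1 : ∀ q, L ((x q : ℚ) : PadicAlgCl p) = 0 := fun q => by
      have := hzx q
      rw [h] at this
      exact norm_le_zero_iff.mp this
    have h2 : ∀ q, L ((y q : ℚ) : PadicAlgCl p) = 0 := fun q => by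
      have := hzy q
      rw [h] at this
      exact norm_le_zero_iff.mp this
    have h3 := hrow 1 0 (fun q => by rw [h1, h2]; simp)
    exact one_ne_zero h3.1
  rcases z with q0 | q0
  · obtain ⟨j, k, hjk⟩ := minor_aux hL hH U x y hxp hxH hnx hny
      (hcore x y hxp hyp hxH hyH hnx hny hrow hcol) q0 (by
        intro h
        apply hz0
        change ‖L ((x q0 : ℚ) : PadicAlgCl p)‖ = 0
        rw [h, norm_zero]) hzx hzy
    exact ⟨j, k, hbound.trans_lt hjk⟩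
  · obtain ⟨j, k, hjk⟩ := minor_aux hL hH U y x hyp hyH hny hnx
      (hcore y x hyp hxp hyH hxH hny hnx (fun t0 t1 h => by
        have := hrow t1 t0 (fun q => by rw [add_comm]; exact h q)
        exact ⟨this.2, this.1⟩) (fun s h1 h2 => hcol s h2 h1)) q0 (by
        intro h
        apply hz0
        change ‖L ((y q0 : ℚ) : PadicAlgCl p)‖ = 0
        rw [h, norm_zero]) hzy hzx
    refine ⟨k, j, hbound.trans_lt ?_⟩
    rw [mul_comm (L ((x k : ℚ) : PadicAlgCl p)), mul_comm (L ((x j : ℚ) : PadicAlgCl p))]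
    exact hjk

/-- Reduction to numbers close to `1`. -/
theorem reduce (hL : IsIwasawaLog p L) {r : ℚ} (hr : r ≠ 0) {H : ℝ} (hH : 3 ≤ H)
    (hrH : HtLe H r) : ∃ r' : ℚ, 0 < r' ∧ HtLe (H ^ (p ^ 3)) r' ∧
      ‖((r' : ℚ) : PadicAlgCl p) - 1‖ * (p : ℝ) ^ 3 ≤ 1 ∧
      L ((r' : ℚ) : PadicAlgCl p) = ((p ^ 2 * (p - 1) : ℕ) : PadicAlgCl p) *
        L ((r : ℚ) : PadicAlgCl p) := by
  have hp2 := hp.out.two_le
  have hpne : ((p : ℕ) : PadicAlgCl p) ≠ 0 := by exact_mod_cast hp.out.ne_zero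
  obtain ⟨v, A, hA, hnum⟩ := Nat.exists_eq_pow_mul_and_not_dvd
    (Int.natAbs_ne_zero.mpr (Rat.num_ne_zero.mpr hr)) p hp.out.ne_one
  obtain ⟨w, B, hB, hden⟩ := Nat.exists_eq_pow_mul_and_not_dvd r.den_nz p hp.out.ne_one
  have hA0 : A ≠ 0 := by rintro rfl; exact hA (dvd_zero _)
  have hB0 : B ≠ 0 := by rintro rfl; exact hB (dvd_zero _)
  have hAne : ((A : ℕ) : PadicAlgCl p) ≠ 0 := by exact_mod_cast hA0
  have hBne : ((B : ℕ) : PadicAlgCl p) ≠ 0 := by exact_mod_cast hB0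
  obtain ⟨m, hm⟩ : ∃ m, m = p ^ 2 * (p - 1) := ⟨_, rfl⟩
  have hmp : m ≤ p ^ 3 := by
    rw [hm]
    calc p ^ 2 * (p - 1) ≤ p ^ 2 * p := Nat.mul_le_mul_left _ (Nat.sub_le _ _)
      _ = p ^ 3 := by ring
  have hAH : (A : ℝ) ≤ H := by
    have h1 : A ≤ r.num.natAbs := by
      rw [hnum]; exact Nat.le_mul_of_pos_left _ (Nat.pow_pos hp.out.pos)
    have h2 : ((r.num.natAbs : ℕ) : ℝ) ≤ H := by
      rw [Nat.cast_natAbs]; push_cast; exact hrH.1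
    exact le_trans (by exact_mod_cast h1) h2
  have hBH : (B : ℝ) ≤ H := by
    have h1 : B ≤ r.den := by
      conv_rhs => rw [hden]
      exact Nat.le_mul_of_pos_left _ (Nat.pow_pos hp.out.pos)
    exact le_trans (by exact_mod_cast h1) hrH.2
  -- powers of integers prime to `p`
  have hpow : ∀ C : ℕ, ¬ p ∣ C → ‖(((C ^ m : ℕ)) : PadicAlgCl p) - 1‖ * (p : ℝ) ^ 3 ≤ 1 := by
    intro C hC
    have hcop : Nat.Coprime C (p ^ 3) :=
      Nat.Coprime.pow_right 3 ((Nat.Prime.coprime_iff_not_dvd hp.out).mpr hC).symm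
    have h1 := Nat.ModEq.pow_totient hcop
    rw [Nat.totient_prime_pow hp.out (by norm_num : 0 < 3)] at h1
    have h2 : (3 - 1) = 2 := rfl
    rw [h2, ← hm] at h1
    have h3 : ((p ^ 3 : ℕ) : ℤ) ∣ ((C ^ m : ℕ) : ℤ) - (1 : ℕ) := (Nat.modEq_iff_dvd.mp h1.symm)
    have h4 : ‖((((C ^ m : ℕ) : ℤ) - 1 : ℤ) : ℚ_[p])‖ ≤ (p : ℝ) ^ (-(3 : ℕ) : ℤ) := by
      rw [Padic.norm_int_le_pow_iff_dvd]
      push_cast at h3 ⊢
      exact h3
    have h5 := norm_ratCast_alg (p := p) ((C : ℚ) ^ m - 1)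
    push_cast at h4 h5 ⊢
    rw [h5]
    have hp0 : (0 : ℝ) < p := by exact_mod_cast hp.out.pos
    calc ‖(C : ℚ_[p]) ^ m - 1‖ * (p : ℝ) ^ 3 ≤ (p : ℝ) ^ (-3 : ℤ) * (p : ℝ) ^ 3 :=
          mul_le_mul_of_nonneg_right h4 (by positivity)
      _ = 1 := by
          rw [zpow_neg]
          have : (p : ℝ) ^ (3 : ℤ) = (p : ℝ) ^ 3 := by exact_mod_cast zpow_natCast (p : ℝ) 3
          rw [this, inv_mul_cancel₀ (by positivity)]
  have hH1 : (1 : ℝ) ≤ H := by linarith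
  have hle : ∀ C : ℕ, (C : ℝ) ≤ H → ((C ^ m : ℕ) : ℝ) ≤ H ^ (p ^ 3) := by
    intro C hC
    push_cast
    exact (pow_le_pow_left₀ (Nat.cast_nonneg _) hC m).trans (pow_le_pow_right₀ hH1 hmp)
  refine ⟨((A ^ m : ℕ) : ℚ) / ((B ^ m : ℕ) : ℚ), ?_, ?_, ?_, ?_⟩
  · have h1 : 0 < A ^ m := Nat.pow_pos (by omega)
    have h2 : 0 < B ^ m := Nat.pow_pos (by omega)
    have h1' : (0 : ℚ) < ((A ^ m : ℕ) : ℚ) := by exact_mod_cast h1
    have h2' : (0 : ℚ) < ((B ^ m : ℕ) : ℚ) := by exact_mod_cast h2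
    exact div_pos h1' h2'
  · exact htLe_of_div (Nat.pow_pos (by omega)) (Nat.pow_pos (by omega)) (hle A hAH) (hle B hBH) rfl
  · have h1 := near_mul (hpow A hA) (near_inv (hpow B hB))
    have e : ((((A ^ m : ℕ) : ℚ) / ((B ^ m : ℕ) : ℚ) : ℚ) : PadicAlgCl p) =
        ((A ^ m : ℕ) : PadicAlgCl p) * (((B ^ m : ℕ) : PadicAlgCl p))⁻¹ := by
      push_cast; rw [div_eq_mul_inv]
    rw [e]
    exact h1
  · -- the logarithm
    have hneg : L (-1) = 0 := by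
      have h1 := hL.mul (-1) (-1) (by simp) (by simp)
      rw [neg_mul_neg, one_mul, hL.one] at h1
      have h2 : (2 : PadicAlgCl p) * L (-1) = 0 := by rw [two_mul]; exact h1.symm
      exact (mul_eq_zero.mp h2).resolve_left two_ne_zero
    have hpL : ∀ k : ℕ, L (((p ^ k : ℕ)) : PadicAlgCl p) = 0 := by
      intro k
      push_cast
      rw [hL.pow hpne, hL.prime, mul_zero]
    have hppne : ∀ k : ℕ, (((p ^ k : ℕ)) : PadicAlgCl p) ≠ 0 := by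
      intro k
      have : p ^ k ≠ 0 := pow_ne_zero _ hp.out.ne_zero
      exact_mod_cast this
    have hLr : L ((r : ℚ) : PadicAlgCl p) = L ((A : ℕ) : PadicAlgCl p) - L ((B : ℕ) : PadicAlgCl p) := by
      have h1 : ((r : ℚ) : PadicAlgCl p) * ((r.den : ℕ) : PadicAlgCl p) = ((r.num : ℤ) : PadicAlgCl p) := by
        have h2 := Rat.mul_den_eq_num r
        have h3 := congrArg (fun z : ℚ => (z : PadicAlgCl p)) h2
        push_cast at h3
        exact h3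
      have hrne : ((r : ℚ) : PadicAlgCl p) ≠ 0 := by exact_mod_cast hr
      have hdne : ((r.den : ℕ) : PadicAlgCl p) ≠ 0 := by exact_mod_cast r.den_nz
      have h2 := hL.mul _ _ hrne hdne
      rw [h1] at h2
      have h3 : L ((r.den : ℕ) : PadicAlgCl p) = L ((B : ℕ) : PadicAlgCl p) := by
        rw [hden, Nat.cast_mul, hL.mul _ _ (hppne w) hBne, hpL, zero_add]
      have h4 : L ((r.num.natAbs : ℕ) : PadicAlgCl p) = L ((A : ℕ) : PadicAlgCl p) := by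
        rw [hnum, Nat.cast_mul, hL.mul _ _ (hppne v) hAne, hpL, zero_add]
      have h5 : L ((r.num : ℤ) : PadicAlgCl p) = L ((r.num.natAbs : ℕ) : PadicAlgCl p) := by
        rcases Int.natAbs_eq r.num with h | h
        · rw [h]; simp
        · have hnne : ((r.num.natAbs : ℕ) : PadicAlgCl p) ≠ 0 := by
            have : r.num.natAbs ≠ 0 := Int.natAbs_ne_zero.mpr (Rat.num_ne_zero.mpr hr)
            exact_mod_cast this
          conv_lhs => rw [h]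
          rw [Int.cast_neg, Int.cast_natCast, ← neg_one_mul, hL.mul _ _ (by simp) hnne, hneg,
            zero_add]
      rw [h5, h3, h4] at h2
      linear_combination -h2
    have e : ((((A ^ m : ℕ) : ℚ) / ((B ^ m : ℕ) : ℚ) : ℚ) : PadicAlgCl p) =
        ((A : ℕ) : PadicAlgCl p) ^ m * (((B : ℕ) : PadicAlgCl p) ^ m)⁻¹ := by
      push_cast; rw [div_eq_mul_inv]
    rw [e, hL.mul _ _ (pow_ne_zero _ hAne) (inv_ne_zero (pow_ne_zero _ hBne)),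
      hL.inv (pow_ne_zero _ hBne), hL.pow hAne, hL.pow hBne, hLr, hm]
    ring

end Pool.Agent.L0h53.PS
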