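import Mathlib
import Pool.Agent.H335R2.Obs.Coord
import Pool.Agent.L0h53.NP.Rel

set_option autoImplicit false

/-! The number of pairs of integers in a multiplicative group of given rank. -/

namespace Pool.Agent.L0h53.PS

open Finset Module Pool.Agent.L0h53.NP

/-- If any `k` elements of a set of pairs of integers `1 ≤ m, n ≤ H`, among them `z0`, are
multiplicatively dependent then the set has at most `(1 + log H / log 2) ^ (k - 1)` elements. -/
theorem count_pairs (k : ℕ) (hk : 1 ≤ k) (S : Set (ℕ × ℕ)) {H : ℝ} (hH : 3 ≤ H)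
    (hS : ∀ z ∈ S, (1 ≤ z.1 ∧ (z.1 : ℝ) ≤ H) ∧ (1 ≤ z.2 ∧ (z.2 : ℝ) ≤ H)) (z0 : ℕ × ℕ)
    (hz0 : z0 ∈ S) (hz01 : z0.1 ≠ 1)
    (hdep : ∀ a : Fin k → ℕ × ℕ, (∀ i, a i ∈ S) → (∃ i, a i = z0) → ∃ s : Fin k → ℤ, s ≠ 0 ∧
      ∑ i, (s i : ℝ) * Real.log (((a i).1 : ℚ) : ℝ) = 0 ∧
      ∑ i, (s i : ℝ) * Real.log (((a i).2 : ℚ) : ℝ) = 0) :
    (S.ncard : ℝ) ≤ (1 + Real.log H / Real.log 2) ^ (k - 1) := by
  classical
  set N := ⌊H⌋₊ with hN
  have hlog2 : 0 < Real.log 2 := Real.log_pos (by norm_num)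
  have hlogH : 0 ≤ Real.log H := Real.log_nonneg (by linarith)
  let pr : Fin 2 → ℕ × ℕ → ℕ := fun i z => if i = 0 then z.1 else z.2
  have hpr : ∀ z ∈ S, ∀ i, 1 ≤ pr i z ∧ (pr i z : ℝ) ≤ H := by
    intro z hz i
    simp only [pr]
    split_ifs
    · exact (hS z hz).1
    · exact (hS z hz).2
  let vec : ℕ × ℕ → (Fin 2 × Fin (N + 1) → ℚ) := fun z i =>
    if (i.2 : ℕ).Prime then (padicValNat i.2 (pr i.1 z) : ℚ) else 0
  let W : Submodule ℚ (Fin 2 × Fin (N + 1) → ℚ) := Submodule.span ℚ (vec '' S)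
  -- `z0` has a nonzero vector
  have hvz0 : vec z0 ≠ 0 := by
    intro h
    apply hz01
    obtain ⟨h1, h1H⟩ := (hS z0 hz0).1
    have hle : z0.1 ≤ N := Nat.le_floor h1H
    by_contra hne
    obtain ⟨p, hp, hpd⟩ := Nat.exists_prime_and_dvd hne
    have := Fact.mk hp
    have hpN : p ≤ N := (Nat.le_of_dvd (by omega) hpd).trans hle
    have h2 := congrFun h (0, ⟨p, by omega⟩)
    simp only [vec, pr, if_true, Pi.zero_apply] at h2
    rw [if_pos hp] at h2
    have h3 : padicValNat p z0.1 = 0 := by exact_mod_cast h2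
    have h4 := one_le_padicValNat_of_dvd (p := p) (n := z0.1) (by omega) hpd
    omega
  -- the rank
  have hrank : finrank ℚ W ≤ k - 1 := by
    by_contra hcon
    obtain ⟨b, hbS, hb0, hbW, hli⟩ := exists_linearIndepOn_extension (K := ℚ) (v := vec)
      (s := {z0}) (t := S) (by
        rw [linearIndepOn_singleton_iff]
        exact hvz0) (Set.singleton_subset_iff.mpr hz0)
    have hbfin : Finite b := hli.finite
    have hfint : Fintype b := Fintype.ofFinite b
    have hspan : Submodule.span ℚ (vec '' b) = W :=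
      le_antisymm (Submodule.span_mono (Set.image_mono hbS)) (Submodule.span_le.mpr hbW)
    have hcard : Fintype.card b = finrank ℚ W := by
      have h1 := finrank_span_eq_card hli
      rw [← h1, ← hspan, Set.image_eq_range]
    have hkb : k ≤ b.ncard := by
      rw [← Nat.card_coe_set_eq, Nat.card_eq_fintype_card]
      omega
    obtain ⟨c, hc0, hcb, hck⟩ := Set.exists_subsuperset_card_eq hb0
      (by rw [Set.ncard_singleton]; exact hk) hkb
    have hcfin : Finite c := Set.Finite.subset (Set.toFinite b) hcb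
    have hcfint : Fintype c := Fintype.ofFinite c
    have hcc : Fintype.card c = k := by
      rw [← Nat.card_eq_fintype_card, Nat.card_coe_set_eq]; exact hck
    let e : Fin k ≃ c := (Fintype.equivFinOfCardEq hcc).symm
    have hli2 : LinearIndependent ℚ (fun i : Fin k => vec ((e i : c) : ℕ × ℕ)) := by
      have h1 : LinearIndepOn ℚ vec c := hli.mono hcb
      exact h1.linearIndependent.comp e e.injective
    obtain ⟨s, hs0, hs1, hs2⟩ := hdep (fun i => ((e i : c) : ℕ × ℕ)) (fun i => hbS (hcb (e i).2))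
      ⟨e.symm ⟨z0, hc0 rfl⟩, by simp⟩
    have hmemS : ∀ i, ((e i : c) : ℕ × ℕ) ∈ S := fun i => hbS (hcb (e i).2)
    have hpos1 : ∀ i, (0 : ℚ) < (((e i : c) : ℕ × ℕ).1 : ℚ) := by
      intro i
      have := (hS _ (hmemS i)).1.1
      have : 0 < ((e i : c) : ℕ × ℕ).1 := by omega
      exact_mod_cast this
    have hpos2 : ∀ i, (0 : ℚ) < (((e i : c) : ℕ × ℕ).2 : ℚ) := by
      intro i
      have := (hS _ (hmemS i)).2.1
      have : 0 < ((e i : c) : ℕ × ℕ).2 := by omega
      exact_mod_cast this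
    have hval1 := (log_zero_iff Finset.univ (fun i => (((e i : c) : ℕ × ℕ).1 : ℚ)) hpos1 s).mp hs1
    have hval2 := (log_zero_iff Finset.univ (fun i => (((e i : c) : ℕ × ℕ).2 : ℚ)) hpos2 s).mp hs2
    apply hs0
    have hz : ∑ i, (s i : ℚ) • vec ((e i : c) : ℕ × ℕ) = 0 := by
      funext j
      rw [Finset.sum_apply]
      simp only [Pi.smul_apply, Pi.zero_apply, smul_eq_mul]
      by_cases hj : (j.2 : ℕ).Prime
      · have key : ∀ f : Fin k → ℕ, ∑ i, s i * padicValRat (j.2 : ℕ) ((f i : ℕ) : ℚ) = 0 →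
            ∑ i, (s i : ℚ) * (padicValNat (j.2 : ℕ) (f i) : ℚ) = 0 := by
          intro f h1
          have h3 : ∑ i, s i * (padicValNat (j.2 : ℕ) (f i) : ℤ) = 0 := by
            rw [← h1]
            exact Finset.sum_congr rfl fun i _ => by rw [padicValRat.of_nat]
          have h4 := congrArg (fun z : ℤ => (z : ℚ)) h3
          simp only [Int.cast_sum, Int.cast_mul, Int.cast_natCast, Int.cast_zero] at h4
          exact h4
        simp only [vec, hj, if_true]
        by_cases hj1 : j.1 = 0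
        · simp only [pr, hj1, if_true]
          exact key _ (hval1 j.2 hj)
        · simp only [pr, hj1, if_false]
          exact key _ (hval2 j.2 hj)
      · simp [vec, hj]
    have h4 := Fintype.linearIndependent_iff.mp hli2 (fun i => (s i : ℚ)) hz
    funext i
    have := h4 i
    exact_mod_cast this
  -- coordinates
  obtain ⟨E, hE1, hE2⟩ := Pool.Agent.H335R2.Obs.coord W
  set M := ⌊Real.log H / Real.log 2⌋₊ with hM
  have hle : ∀ z ∈ S, ∀ i, ∀ p : ℕ, p.Prime → padicValNat p (pr i z) ≤ M := by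
    intro z hz i p hp
    obtain ⟨h2, hnH⟩ := hpr z hz i
    have h3 : p ^ padicValNat p (pr i z) ≤ pr i z := Nat.le_of_dvd (by omega) pow_padicValNat_dvd
    have h4 : (2 : ℝ) ^ padicValNat p (pr i z) ≤ H := by
      calc (2 : ℝ) ^ padicValNat p (pr i z) ≤ (p : ℝ) ^ padicValNat p (pr i z) := by
            apply pow_le_pow_left₀ (by norm_num)
            exact_mod_cast hp.two_le
        _ = ((p ^ padicValNat p (pr i z) : ℕ) : ℝ) := by push_cast; ring
        _ ≤ pr i z := by exact_mod_cast h3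
        _ ≤ H := hnH
    rw [hM]
    apply Nat.le_floor
    rw [le_div_iff₀ hlog2]
    have h5 := Real.log_le_log (by positivity) h4
    rwa [Real.log_pow] at h5
  let f : ℕ × ℕ → ({j // j ∈ univ \ E} → Fin (M + 1)) := fun z j =>
    if h : (j.1.2 : ℕ).Prime ∧ padicValNat (j.1.2 : ℕ) (pr j.1.1 z) ≤ M then
      ⟨padicValNat (j.1.2 : ℕ) (pr j.1.1 z), by omega⟩ else 0
  have hinj : Set.InjOn f S := by
    intro n hn n' hn' hff
    have h1 : vec n - vec n' ∈ W := W.sub_mem (Submodule.subset_span ⟨n, hn, rfl⟩)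
      (Submodule.subset_span ⟨n', hn', rfl⟩)
    have h2 : vec n - vec n' = 0 := by
      refine hE2 _ h1 fun j hj => ?_
      have hj' : j ∈ univ \ E := by simp [hj]
      have h3 := congrFun hff ⟨j, hj'⟩
      rw [Pi.sub_apply, sub_eq_zero]
      by_cases hp : (j.2 : ℕ).Prime
      · simp only [f] at h3
        rw [dif_pos ⟨hp, hle n hn _ _ hp⟩, dif_pos ⟨hp, hle n' hn' _ _ hp⟩] at h3
        have h4 : padicValNat (j.2 : ℕ) (pr j.1 n) = padicValNat (j.2 : ℕ) (pr j.1 n') :=
          congrArg Fin.val h3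
        simp [vec, h4]
      · simp [vec, hp]
    have hcomp : ∀ i, pr i n = pr i n' := by
      intro i
      obtain ⟨hn2, hnH⟩ := hpr n hn i
      obtain ⟨hn2', hnH'⟩ := hpr n' hn' i
      have hnN : pr i n ≤ N := Nat.le_floor hnH
      have hnN' : pr i n' ≤ N := Nat.le_floor hnH'
      apply Nat.eq_of_factorization_eq (by omega) (by omega)
      intro p
      by_cases hp : p.Prime
      · rcases Nat.lt_or_ge N p with hNp | hNp
        · rw [Nat.factorization_eq_zero_of_lt (by omega), Nat.factorization_eq_zero_of_lt (by omega)]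
        · have h5 := congrFun h2 (i, ⟨p, by omega⟩)
          rw [Pi.sub_apply, Pi.zero_apply, sub_eq_zero] at h5
          simp only [vec, hp, if_true] at h5
          rw [Nat.factorization_def _ hp, Nat.factorization_def _ hp]
          exact_mod_cast h5
      · rw [Nat.factorization_eq_zero_of_not_prime _ hp, Nat.factorization_eq_zero_of_not_prime _ hp]
    have e1 := hcomp 0
    have e2 := hcomp 1
    simp only [pr, if_true] at e1
    simp only [pr, one_ne_zero, if_false] at e2
    exact Prod.ext e1 e2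
  have h1 : S.ncard ≤ (M + 1) ^ (k - 1) := by
    calc S.ncard = (f '' S).ncard := hinj.ncard_image.symm
      _ ≤ (Set.univ : Set ({j // j ∈ univ \ E} → Fin (M + 1))).ncard :=
          Set.ncard_le_ncard (Set.subset_univ _) Set.finite_univ
      _ = (M + 1) ^ (univ \ E).card := by
          rw [Set.ncard_univ, Nat.card_eq_fintype_card, Fintype.card_fun, Fintype.card_fin,
            Fintype.card_coe]
      _ ≤ (M + 1) ^ (k - 1) := by
          rw [hE1]
          exact Nat.pow_le_pow_right (by omega) hrank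
  have h2 : (M : ℝ) ≤ Real.log H / Real.log 2 := Nat.floor_le (by positivity)
  calc (S.ncard : ℝ) ≤ (((M + 1) ^ (k - 1) : ℕ) : ℝ) := by exact_mod_cast h1
    _ = ((M : ℝ) + 1) ^ (k - 1) := by push_cast; ring
    _ ≤ (1 + Real.log H / Real.log 2) ^ (k - 1) :=
        pow_le_pow_left₀ (by positivity) (by linarith) _

end Pool.Agent.L0h53.PS
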