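import Mathlib
import Pool.Agent.L0h53.PS.Minor
import Pool.Agent.L0h53.PS.Count

set_option autoImplicit false

/-! The uniform quantitative `p`-adic six exponentials theorem for rational numbers. -/

namespace Pool.Agent.L0h53.PS

open Finset Pool.Agent.L0h53.NP Pool.Agent.W245.PB

/-- **Minors.** -/
theorem six (l : ℕ) (hl : 3 ≤ l) (κ : ℝ) (hκ : (2 * l : ℝ) / (l - 2) < κ) :
    ∃ C : ℝ, 0 < C ∧ ∀ (p : ℕ) [Fact p.Prime] (L : PadicAlgCl p → PadicAlgCl p),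
    IsIwasawaLog p L → ∀ H : ℝ, 3 ≤ H → ∀ x y : Fin l → ℚ, (∀ q, x q ≠ 0) → (∀ q, y q ≠ 0) →
    (∀ q, HtLe H (x q)) → (∀ q, HtLe H (y q)) →
    (∀ t0 t1 : ℤ, (∀ q, (t0 : PadicAlgCl p) * L ((x q : ℚ) : PadicAlgCl p) +
      (t1 : PadicAlgCl p) * L ((y q : ℚ) : PadicAlgCl p) = 0) → t0 = 0 ∧ t1 = 0) →
    (∀ s : Fin l → ℤ, ∑ q, (s q : PadicAlgCl p) * L ((x q : ℚ) : PadicAlgCl p) = 0 →
      ∑ q, (s q : PadicAlgCl p) * L ((y q : ℚ) : PadicAlgCl p) = 0 → s = 0) →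
    ∃ j k, Real.exp (-(C * ((p : ℝ) ^ 3 * Real.log H) ^ κ)) <
      ‖L ((x j : ℚ) : PadicAlgCl p) * L ((y k : ℚ) : PadicAlgCl p) -
        L ((x k : ℚ) : PadicAlgCl p) * L ((y j : ℚ) : PadicAlgCl p)‖ := by
  obtain ⟨a, σ, ha, hσ, hpar, hrat⟩ := choose_par l hl κ hκ
  have hpar' : 2 * σ + 2 * a + 1 ≤ l * σ := by
    have h1 : (l - 2) * σ + 2 * σ = l * σ := by
      rw [← Nat.add_mul]
      congr 1
      omega
    omega
  have hlR : (3 : ℝ) ≤ l := by exact_mod_cast hl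
  obtain ⟨C, hC, hCn⟩ := choose_nB a (2 * σ + 2 * a + 1) ha κ hrat (800 * l) (by positivity) 200 1
    zero_le_one
  refine ⟨C, hC, ?_⟩
  intro p hp L hL H hH x y hx hy hxH hyH hrow hcol
  have hp0 : (0 : ℝ) < p := by exact_mod_cast hp.out.pos
  have hp1 : (1 : ℝ) ≤ p := by exact_mod_cast hp.out.one_lt.le
  have hlog : 1 ≤ Real.log H := by
    rw [Real.le_log_iff_exp_le (by linarith)]
    have := Real.exp_one_lt_d9
    linarith
  have hH' : 3 ≤ H ^ (p ^ 3) := by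
    calc (3 : ℝ) ≤ H := hH
      _ = H ^ 1 := (pow_one _).symm
      _ ≤ H ^ (p ^ 3) := pow_le_pow_right₀ (by linarith) (Nat.one_le_pow _ _ hp.out.pos)
  have hlogH' : Real.log (H ^ (p ^ 3)) = (p : ℝ) ^ 3 * Real.log H := by
    rw [Real.log_pow]; push_cast; ring
  obtain ⟨n, hn, hn1, hnΛ, hnup, -⟩ := hCn (H ^ (p ^ 3)) hH'
  rw [one_mul] at hnΛ
  have hpn : (p : ℝ) ≤ (n : ℝ) ^ a := by
    refine le_trans ?_ hnΛ
    rw [hlogH']
    have h1 : (p : ℝ) ≤ (p : ℝ) ^ 3 := by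
      calc (p : ℝ) = (p : ℝ) ^ 1 := (pow_one _).symm
        _ ≤ (p : ℝ) ^ 3 := pow_le_pow_right₀ hp1 (by norm_num)
    have h2 : (p : ℝ) ≤ (p : ℝ) ^ 3 * Real.log H := by nlinarith
    nlinarith
  choose x' hx'0 hx'H hx'n hx'L using fun q => reduce hL (hx q) hH (hxH q)
  choose y' hy'0 hy'H hy'n hy'L using fun q => reduce hL (hy q) hH (hyH q)
  obtain ⟨m, hm⟩ : ∃ m : ℕ, m = p ^ 2 * (p - 1) := ⟨_, rfl⟩
  have hm0 : ((m : ℕ) : PadicAlgCl p) ≠ 0 := by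
    have h1 := hp.out.two_le
    have : m ≠ 0 := by
      rw [hm]
      exact mul_ne_zero (pow_ne_zero _ hp.out.ne_zero) (by omega)
    exact_mod_cast this
  simp only [← hm] at hx'L hy'L
  obtain ⟨j, k, hjk⟩ := minor_near hL (by omega) ha hpar' hn hH' hnΛ hpn x' y' hx'0 hy'0 hx'H hy'H
    hx'n hy'n (by
      intro t0 t1 h
      apply hrow t0 t1
      intro q
      have h1 := h q
      rw [hx'L, hy'L] at h1
      have h2 : ((m : ℕ) : PadicAlgCl p) * ((t0 : PadicAlgCl p) * L ((x q : ℚ) : PadicAlgCl p) +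
          (t1 : PadicAlgCl p) * L ((y q : ℚ) : PadicAlgCl p)) = 0 := by
        linear_combination h1
      exact (mul_eq_zero.mp h2).resolve_left hm0) (by
      have key : ∀ (s : Fin l → ℤ) (z z' : Fin l → ℚ), (∀ q, L ((z' q : ℚ) : PadicAlgCl p) =
          ((m : ℕ) : PadicAlgCl p) * L ((z q : ℚ) : PadicAlgCl p)) →
          ∑ q, (s q : PadicAlgCl p) * L ((z' q : ℚ) : PadicAlgCl p) = 0 →
          ∑ q, (s q : PadicAlgCl p) * L ((z q : ℚ) : PadicAlgCl p) = 0 := by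
        intro s z z' hz h
        have h2 : ((m : ℕ) : PadicAlgCl p) *
            ∑ q, (s q : PadicAlgCl p) * L ((z q : ℚ) : PadicAlgCl p) = 0 := by
          rw [← h, Finset.mul_sum]
          exact Finset.sum_congr rfl fun q _ => by rw [hz]; ring
        exact (mul_eq_zero.mp h2).resolve_left hm0
      intro s h1 h2
      exact hcol s (key s x x' hx'L h1) (key s y y' hy'L h2))
  refine ⟨j, k, ?_⟩
  have h1 : Real.exp (-(C * ((p : ℝ) ^ 3 * Real.log H) ^ κ)) ≤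
      Real.exp (-((n : ℝ) ^ (σ + a)) ^ 2) := by
    apply Real.exp_le_exp.mpr
    rw [← hlogH']
    apply neg_le_neg
    refine le_trans ?_ hnup
    rw [← pow_mul]
    exact pow_le_pow_right₀ (by exact_mod_cast hn1) (by omega)
  refine h1.trans_lt (hjk.trans_le ?_)
  have e1 : L ((x' j : ℚ) : PadicAlgCl p) * L ((y' k : ℚ) : PadicAlgCl p) -
      L ((x' k : ℚ) : PadicAlgCl p) * L ((y' j : ℚ) : PadicAlgCl p) =
      ((m : ℕ) : PadicAlgCl p) * ((m : ℕ) : PadicAlgCl p) *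
      (L ((x j : ℚ) : PadicAlgCl p) * L ((y k : ℚ) : PadicAlgCl p) -
        L ((x k : ℚ) : PadicAlgCl p) * L ((y j : ℚ) : PadicAlgCl p)) := by
    rw [hx'L, hx'L, hy'L, hy'L]; ring
  rw [e1, norm_mul, norm_mul]
  have h2 : ‖((m : ℕ) : PadicAlgCl p)‖ ≤ 1 := IsUltrametricDist.norm_natCast_le_one _ _
  have h3 : ‖((m : ℕ) : PadicAlgCl p)‖ * ‖((m : ℕ) : PadicAlgCl p)‖ ≤ 1 :=
    mul_le_one₀ h2 (norm_nonneg _) h2
  calc _ ≤ 1 * ‖L ((x j : ℚ) : PadicAlgCl p) * L ((y k : ℚ) : PadicAlgCl p) -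
        L ((x k : ℚ) : PadicAlgCl p) * L ((y j : ℚ) : PadicAlgCl p)‖ :=
        mul_le_mul_of_nonneg_right h3 (norm_nonneg _)
    _ = _ := one_mul _

variable {p : ℕ} [hp : Fact p.Prime] {L : PadicAlgCl p → PadicAlgCl p}

theorem pow_near {C : ℕ} (hC : ¬ p ∣ C) :
    ‖((C : ℕ) : PadicAlgCl p) ^ (p ^ 2 * (p - 1)) - 1‖ * (p : ℝ) ^ 3 ≤ 1 := by
  obtain ⟨m, hm⟩ : ∃ m, m = p ^ 2 * (p - 1) := ⟨_, rfl⟩
  rw [← hm]
  have hcop : Nat.Coprime C (p ^ 3) :=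
    Nat.Coprime.pow_right 3 ((Nat.Prime.coprime_iff_not_dvd hp.out).mpr hC).symm
  have h1 := Nat.ModEq.pow_totient hcop
  rw [Nat.totient_prime_pow hp.out (by norm_num : 0 < 3)] at h1
  have h2 : (3 - 1) = 2 := rfl
  rw [h2, ← hm] at h1
  have h3 : ((p ^ 3 : ℕ) : ℤ) ∣ ((C ^ m : ℕ) : ℤ) - (1 : ℕ) := (Nat.modEq_iff_dvd.mp h1.symm)
  have h4 : ‖((((C ^ m : ℕ) : ℤ) - 1 : ℤ) : ℚ_[p])‖ ≤ (p : ℝ) ^ (-(3 : ℕ) : ℤ) := by
    rw [Padic.norm_int_le_pow_iff_dvd]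
    push_cast at h3 ⊢
    exact h3
  have h5 := norm_ratCast_alg (p := p) ((C : ℚ) ^ m - 1)
  push_cast at h4 h5 ⊢
  rw [h5]
  have hp0 : (0 : ℝ) < p := by exact_mod_cast hp.out.pos
  calc ‖(C : ℚ_[p]) ^ m - 1‖ * (p : ℝ) ^ 3 ≤ (p : ℝ) ^ (-3 : ℤ) * (p : ℝ) ^ 3 :=
        mul_le_mul_of_nonneg_right h4 (by positivity)
    _ = 1 := by
        rw [zpow_neg]
        have : (p : ℝ) ^ (3 : ℤ) = (p : ℝ) ^ 3 := by exact_mod_cast zpow_natCast (p : ℝ) 3
        rw [this, inv_mul_cancel₀ (by positivity)]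

theorem norm_pred : ‖((p - 1 : ℕ) : PadicAlgCl p)‖ = 1 := by
  have h1 : (1 : PadicAlgCl p) = ((p : ℕ) : PadicAlgCl p) + -(((p - 1 : ℕ)) : PadicAlgCl p) := by
    rw [Nat.cast_sub hp.out.one_lt.le]
    push_cast
    ring
  have h2 := IsUltrametricDist.norm_add_le_max ((p : ℕ) : PadicAlgCl p)
    (-(((p - 1 : ℕ)) : PadicAlgCl p))
  rw [← h1, norm_one, norm_neg] at h2
  apply le_antisymm (IsUltrametricDist.norm_natCast_le_one _ _)
  rcases le_max_iff.mp h2 with h | h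
  · exfalso
    have h3 : ‖((p : ℕ) : PadicAlgCl p)‖ = (p : ℝ)⁻¹ := norm_p p
    rw [h3] at h
    have hp1 : (1 : ℝ) < p := by exact_mod_cast hp.out.one_lt
    exact absurd h (not_le.mpr (inv_lt_one_of_one_lt₀ hp1))
  · exact h

/-- logarithms of integers prime to `p` are integral -/
theorem log_unit_le (hL : IsIwasawaLog p L) {C : ℕ} (hC : ¬ p ∣ C) :
    ‖L ((C : ℕ) : PadicAlgCl p)‖ ≤ 1 := by
  have hp0 : (0 : ℝ) < p := by exact_mod_cast hp.out.pos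
  have hp1 : (1 : ℝ) ≤ p := by exact_mod_cast hp.out.one_lt.le
  have hC0 : C ≠ 0 := by rintro rfl; exact hC (dvd_zero _)
  have hCne : ((C : ℕ) : PadicAlgCl p) ≠ 0 := by exact_mod_cast hC0
  have h1 := pow_near hC
  have h2 := norm_log hL h1
  rw [hL.pow hCne] at h2
  push_cast at h2
  rw [norm_mul, norm_mul, norm_pow, norm_pred, mul_one] at h2
  have h3 : ‖((p : ℕ) : PadicAlgCl p)‖ = (p : ℝ)⁻¹ := norm_p p
  rw [h3] at h2
  rw [← h2] at h1
  have h4 : (p : ℝ)⁻¹ ^ 2 * ‖L ((C : ℕ) : PadicAlgCl p)‖ * (p : ℝ) ^ 3 =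
      p * ‖L ((C : ℕ) : PadicAlgCl p)‖ := by
    field_simp
  rw [h4] at h1
  have := norm_nonneg (L ((C : ℕ) : PadicAlgCl p))
  nlinarith

/-- linear relations between logarithms are multiplicative relations -/
theorem logs_zero (hL : IsIwasawaLog p L) {k : ℕ} (m : Fin k → ℕ) (hm : ∀ i, ¬ p ∣ m i)
    (s : Fin k → ℤ) (h : ∑ i, (s i : PadicAlgCl p) * L ((m i : ℕ) : PadicAlgCl p) = 0) :
    ∑ i, (s i : ℝ) * Real.log ((m i : ℚ) : ℝ) = 0 := by
  obtain ⟨M, hM⟩ : ∃ M, M = p ^ 2 * (p - 1) := ⟨_, rfl⟩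
  have hM0 : M ≠ 0 := by
    have h1 := hp.out.two_le
    rw [hM]
    exact mul_ne_zero (pow_ne_zero _ hp.out.ne_zero) (by omega)
  have hm0 : ∀ i, m i ≠ 0 := fun i h0 => hm i (by rw [h0]; exact dvd_zero _)
  let x : Fin k → ℚ := fun i => (m i : ℚ) ^ M
  have hx0 : ∀ i, 0 < x i := fun i => by
    have : 0 < m i := Nat.pos_of_ne_zero (hm0 i)
    have : (0 : ℚ) < m i := by exact_mod_cast this
    positivity
  have hnx : ∀ i, ‖((x i : ℚ) : PadicAlgCl p) - 1‖ * (p : ℝ) ^ 3 ≤ 1 := by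
    intro i
    have h1 := pow_near (hm i)
    rw [← hM] at h1
    have e : ((x i : ℚ) : PadicAlgCl p) = ((m i : ℕ) : PadicAlgCl p) ^ M := by
      simp only [x]; push_cast; rfl
    rw [e]; exact h1
  have h1 := log_ratProd hL x hx0 s
  have h2 : ∑ q, (s q : PadicAlgCl p) * L ((x q : ℚ) : PadicAlgCl p) = 0 := by
    have h3 : ∀ q, L ((x q : ℚ) : PadicAlgCl p) = (M : PadicAlgCl p) * L ((m q : ℕ) : PadicAlgCl p) := by
      intro q
      have e : ((x q : ℚ) : PadicAlgCl p) = ((m q : ℕ) : PadicAlgCl p) ^ M := by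
        simp only [x]; push_cast; rfl
      rw [e, hL.pow (by exact_mod_cast hm0 q)]
    calc _ = (M : PadicAlgCl p) * ∑ i, (s i : PadicAlgCl p) * L ((m i : ℕ) : PadicAlgCl p) := by
          rw [Finset.mul_sum]
          exact Finset.sum_congr rfl fun q _ => by rw [h3]; ring
      _ = 0 := by rw [h, mul_zero]
  rw [h2] at h1
  have h3 := hL.eq_one (near_ratProd x hnx s) h1
  have h4 : (∏ q, x q ^ s q : ℚ) = 1 := by exact_mod_cast h3
  have h5 := log_prod Finset.univ x hx0 s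
  rw [h4] at h5
  have h6 : ∑ i, (s i : ℝ) * Real.log (x i) = (M : ℝ) * ∑ i, (s i : ℝ) * Real.log ((m i : ℚ) : ℝ) := by
    rw [Finset.mul_sum]
    refine Finset.sum_congr rfl fun i _ => ?_
    simp only [x]
    push_cast
    rw [Real.log_pow]
    ring
  rw [h6] at h5
  simp only [Rat.cast_one, Real.log_one] at h5
  exact (mul_eq_zero.mp h5.symm).resolve_left (by exact_mod_cast hM0)

/-- **Counting.** -/
theorem few (l : ℕ) (hl : 3 ≤ l) {ε : ℝ} (hL : IsIwasawaLog p L) {H : ℝ} (hH : 3 ≤ H)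
    (hsix : ∀ x y : Fin l → ℚ, (∀ q, x q ≠ 0) → (∀ q, y q ≠ 0) →
    (∀ q, HtLe H (x q)) → (∀ q, HtLe H (y q)) →
    (∀ t0 t1 : ℤ, (∀ q, (t0 : PadicAlgCl p) * L ((x q : ℚ) : PadicAlgCl p) +
      (t1 : PadicAlgCl p) * L ((y q : ℚ) : PadicAlgCl p) = 0) → t0 = 0 ∧ t1 = 0) →
    (∀ s : Fin l → ℤ, ∑ q, (s q : PadicAlgCl p) * L ((x q : ℚ) : PadicAlgCl p) = 0 →
      ∑ q, (s q : PadicAlgCl p) * L ((y q : ℚ) : PadicAlgCl p) = 0 → s = 0) →
    ∃ j k, ε < ‖L ((x j : ℚ) : PadicAlgCl p) * L ((y k : ℚ) : PadicAlgCl p) -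
        L ((x k : ℚ) : PadicAlgCl p) * L ((y j : ℚ) : PadicAlgCl p)‖)
    (t : PadicAlgCl p) (S : Set (ℕ × ℕ))
    (hS : ∀ z ∈ S, (1 ≤ z.1 ∧ (z.1 : ℝ) ≤ H) ∧ (1 ≤ z.2 ∧ (z.2 : ℝ) ≤ H))
    (hSp : ∀ z ∈ S, ¬ p ∣ z.1 ∧ ¬ p ∣ z.2)
    (hSt : ∀ z ∈ S, ‖L ((z.2 : ℕ) : PadicAlgCl p) - t * L ((z.1 : ℕ) : PadicAlgCl p)‖ ≤ ε)
    (z0 : ℕ × ℕ) (hz0 : z0 ∈ S)
    (hind : ∀ u v : ℤ, (z0.1 : ℚ) ^ u * (z0.2 : ℚ) ^ v = 1 → u = 0 ∧ v = 0) :
    (S.ncard : ℝ) ≤ (1 + Real.log H / Real.log 2) ^ (l - 1) := by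
  refine count_pairs l (by omega) S hH hS z0 hz0 ?_ ?_
  · intro h
    have := hind 1 0 (by rw [h]; simp)
    exact one_ne_zero this.1
  · intro a haS ⟨i0, hi0⟩
    by_contra hcon
    push Not at hcon
    have hε : 0 ≤ ε := (norm_nonneg _).trans (hSt z0 hz0)
    have hht : ∀ n : ℕ, 1 ≤ n → (n : ℝ) ≤ H → HtLe H (n : ℚ) := by
      intro n _ hn
      constructor
      · simpa using hn
      · simp; linarith
    obtain ⟨j, k, hjk⟩ := hsix (fun i => ((a i).1 : ℚ)) (fun i => ((a i).2 : ℚ))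
      (fun q => by
        have := (hS _ (haS q)).1.1
        have : (a q).1 ≠ 0 := by omega
        exact_mod_cast this)
      (fun q => by
        have := (hS _ (haS q)).2.1
        have : (a q).2 ≠ 0 := by omega
        exact_mod_cast this)
      (fun q => hht _ (hS _ (haS q)).1.1 (hS _ (haS q)).1.2)
      (fun q => hht _ (hS _ (haS q)).2.1 (hS _ (haS q)).2.2)
      (by
        intro t0 t1 h
        have h1 := h i0
        rw [hi0] at h1
        push_cast at h1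
        have h2 := logs_zero hL ![z0.1, z0.2] (by
          intro i
          fin_cases i
          · exact (hSp z0 hz0).1
          · exact (hSp z0 hz0).2) ![t0, t1] (by
          rw [Fin.sum_univ_two]
          exact h1)
        rw [Fin.sum_univ_two] at h2
        change (t0 : ℝ) * Real.log ((z0.1 : ℚ) : ℝ) + (t1 : ℝ) * Real.log ((z0.2 : ℚ) : ℝ) = 0 at h2
        apply hind
        have hz1 : (0 : ℚ) < z0.1 := by
          have := (hS _ hz0).1.1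
          have : 0 < z0.1 := by omega
          exact_mod_cast this
        have hz2 : (0 : ℚ) < z0.2 := by
          have := (hS _ hz0).2.1
          have : 0 < z0.2 := by omega
          exact_mod_cast this
        have hz1R : (0 : ℝ) < ((z0.1 : ℚ) : ℝ) := by exact_mod_cast hz1
        have hz2R : (0 : ℝ) < ((z0.2 : ℚ) : ℝ) := by exact_mod_cast hz2
        apply eq_one_of_log (by positivity)
        rw [Rat.cast_mul, Rat.cast_zpow, Rat.cast_zpow, Real.log_mul (by positivity) (by positivity),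
          Real.log_zpow, Real.log_zpow]
        exact h2)
      (by
        intro s h1 h2
        by_contra hs
        push_cast at h1 h2
        exact hcon s hs (logs_zero hL _ (fun i => (hSp _ (haS i)).1) s h1)
          (logs_zero hL _ (fun i => (hSp _ (haS i)).2) s h2))
    simp only [Rat.cast_natCast] at hjk
    refine absurd hjk (not_lt.mpr ?_)
    have e1 : L (((a j).1 : ℕ) : PadicAlgCl p) * L (((a k).2 : ℕ) : PadicAlgCl p) -
        L (((a k).1 : ℕ) : PadicAlgCl p) * L (((a j).2 : ℕ) : PadicAlgCl p) =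
        L (((a j).1 : ℕ) : PadicAlgCl p) * (L (((a k).2 : ℕ) : PadicAlgCl p) -
          t * L (((a k).1 : ℕ) : PadicAlgCl p)) +
        -(L (((a k).1 : ℕ) : PadicAlgCl p) * (L (((a j).2 : ℕ) : PadicAlgCl p) -
          t * L (((a j).1 : ℕ) : PadicAlgCl p))) := by ring
    have key : ∀ j k, ‖L (((a j).1 : ℕ) : PadicAlgCl p) * (L (((a k).2 : ℕ) : PadicAlgCl p) -
          t * L (((a k).1 : ℕ) : PadicAlgCl p))‖ ≤ ε := by
      intro j k
      rw [norm_mul]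
      calc ‖L (((a j).1 : ℕ) : PadicAlgCl p)‖ * _ ≤ 1 * _ :=
            mul_le_mul_of_nonneg_right (log_unit_le hL (hSp _ (haS j)).1) (norm_nonneg _)
        _ ≤ ε := by rw [one_mul]; exact hSt _ (haS k)
    rw [e1]
    refine (IsUltrametricDist.norm_add_le_max _ _).trans (max_le (key j k) ?_)
    rw [norm_neg]
    exact key k j

end Pool.Agent.L0h53.PS
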